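import Pool.Agent.Helper86.FF.Spec

/-!
# BH and B0: heavy vertices do not burn; the start
-/

namespace Pool.FF.BH

open Pool.FF

set_option maxHeartbeats 4000000
set_option synthInstance.maxHeartbeats 400000

theorem mem_Brn {p : List ℕ} {A : Finset ℕ} {v : ℕ} :
    v ∈ Brn p A ↔ v ≤ p.length ∧ ∀ j, (par p)^[j] v ∉ A := by
  classical
  unfold Brn
  simp only [Finset.mem_filter, Finset.mem_range, Nat.lt_succ_iff]

/-- A child of a burning vertex burns unless it is protected. -/
theorem child_mem_Brn {p : List ℕ} {A : Finset ℕ} {u v : ℕ} (hv : v ∈ Brn p A)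
    (hu : u ≤ p.length) (huv : par p u = v) (hA : u ∉ A) : u ∈ Brn p A := by
  rw [mem_Brn] at hv ⊢
  refine ⟨hu, fun j => ?_⟩
  cases j with
  | zero => exact hA
  | succ j => rw [Function.iterate_succ_apply, huv]; exact hv.2 j

/-- The root burns. -/
theorem zero_mem_Brn {p : List ℕ} {A : Finset ℕ} (hA : Hall p A) : 0 ∈ Brn p A := by
  rw [mem_Brn]
  refine ⟨Nat.zero_le _, fun j => ?_⟩
  have h0 : par p 0 = 0 := if_pos rfl
  have : (par p)^[j] 0 = 0 := Function.iterate_fixed h0 j
  rw [this]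
  intro h
  have := (hA.1 0 h).1
  omega

theorem dep_pos {p : List ℕ} (hD : S_DEP) (hp : IsTreeCode p) {v : ℕ} (h1 : 1 ≤ v)
    (h2 : v ≤ p.length) : 1 ≤ dep p v := by
  have := ((hD p hp).2.2 v h1 h2).2
  omega

theorem main (hD : S_DEP) : S_BH := by
  intro W g k H cs p data A hun hA hB v hv hdep hdata
  obtain ⟨hp, h0, hv'⟩ := hun
  have hvl := (mem_Brn.1 hv).1
  have hv0 : 1 ≤ v := by
    rcases Nat.eq_zero_or_pos v with h | h
    · subst h
      rw [h0] at hdata
      simp [rootD] at hdata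
    · exact h
  have hd1 := dep_pos hD hp hv0 hvl
  obtain ⟨_, h3⟩ := hv' v hvl
  obtain ⟨ks, hnd, hmem, hmap⟩ := h3 (by omega)
  rw [hdata] at hmap
  have e' : chF W g cs (k + H + 2) H (dep p v) (false, 1, []) =
      List.replicate (k + H + 2) (false, 0, []) := by
    have : dep p v ≠ 0 := by omega
    simp [chF, this]
  rw [e'] at hmap
  have hlen : ks.length = k + H + 2 := by
    have := congrArg List.length hmap
    simpa using this
  have hcard : ks.toFinset.card = k + H + 2 := by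
    rw [List.toFinset_card_of_nodup hnd, hlen]
  have h5 : (ks.toFinset ∩ A).card ≤ H + 1 := by
    refine le_trans (Finset.card_le_card ?_) (hA.2 (H + 1))
    intro u hu
    obtain ⟨hu1, hu2⟩ := Finset.mem_inter.1 hu
    rw [List.mem_toFinset] at hu1
    obtain ⟨u1, u2, u3⟩ := (hmem u).1 hu1
    have := ((hD p hp).2.2 u u1 u2).2
    rw [u3] at this
    exact Finset.mem_filter.2 ⟨hu2, by omega⟩
  have h6 : ks.toFinset \ A ⊆ Brn p A := by
    intro u hu
    obtain ⟨hu1, hu2⟩ := Finset.mem_sdiff.1 hu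
    rw [List.mem_toFinset] at hu1
    obtain ⟨u1, u2, u3⟩ := (hmem u).1 hu1
    exact child_mem_Brn hv u2 u3 hu2
  have h7 := Finset.card_le_card h6
  have h8 := Finset.card_sdiff_add_card_inter ks.toFinset A
  omega

theorem main0 (hD : S_DEP) : S_B0 := by
  intro W g K H cs p data A hH hun hA hNH
  obtain ⟨hp, h0, hv'⟩ := hun
  obtain ⟨hl, hd0, hd⟩ := hD p hp
  obtain ⟨_, h3⟩ := hv' 0 (Nat.zero_le _)
  obtain ⟨ks, hnd, hmem, hmap⟩ := h3 (by omega)
  rw [hd0, h0] at hmap
  have e' : chF W g cs K H 0 rootD = (false, 1, []) :: (List.range W).map (fun j => (true, j, [])) := by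
    simp [chF]
  rw [e'] at hmap
  obtain ⟨a, l, rfl, ha, hl'⟩ := List.map_eq_cons_iff.1 hmap
  have hroot := zero_mem_Brn hA
  -- depth of the children
  have hdk : ∀ u ∈ a :: l, dep p u = 1 := by
    intro u hu
    obtain ⟨u1, u2, u3⟩ := (hmem u).1 hu
    have := (hd u u1 u2).2
    rw [u3, hd0] at this
    exact this
  have haA : a ∈ A := by
    by_contra hcon
    obtain ⟨u1, u2, u3⟩ := (hmem a).1 List.mem_cons_self
    have := child_mem_Brn hroot u2 u3 hcon
    refine hNH a this ?_ ha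
    rw [hdk a List.mem_cons_self]
    exact hH
  have haf : a ∈ A.filter (fun x => dep p x ≤ 1) :=
    Finset.mem_filter.2 ⟨haA, (hdk a List.mem_cons_self).le⟩
  refine ⟨?_, ?_⟩
  · intro j hj
    have : ((true, j, []) : Dt) ∈ l.map data := by
      rw [hl']
      exact List.mem_map.2 ⟨j, List.mem_range.2 hj, rfl⟩
    obtain ⟨v, hvl, hvd⟩ := List.mem_map.1 this
    obtain ⟨u1, u2, u3⟩ := (hmem v).1 (List.mem_cons_of_mem _ hvl)
    refine ⟨v, child_mem_Brn hroot u2 u3 ?_, ?_, hvd⟩
    · intro hvA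
      have hvf : v ∈ A.filter (fun x => dep p x ≤ 1) :=
        Finset.mem_filter.2 ⟨hvA, (hdk v (List.mem_cons_of_mem _ hvl)).le⟩
      have := Finset.card_le_one.1 (hA.2 1) a haf v hvf
      subst this
      exact (List.nodup_cons.1 hnd).1 hvl
    · rw [hdk v (List.mem_cons_of_mem _ hvl)]
  · exact Finset.card_pos.2 ⟨a, haf⟩

end Pool.FF.BH
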