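import Pool.Agent.Helper86.FF.Spec

/-!
# DEP: depths
-/

namespace Pool.FF.DEP

open Pool.FF

set_option maxHeartbeats 4000000
set_option synthInstance.maxHeartbeats 400000

theorem deps_append (p : List ℕ) (q : ℕ) :
    deps (p ++ [q]) = deps p ++ [(deps p).getD q 0 + 1] := by
  simp [deps, List.foldl_append]

theorem deps_length (p : List ℕ) : (deps p).length = p.length + 1 := by
  induction p using List.reverseRecOn with
  | nil => rfl
  | append_singleton p q ih => rw [deps_append]; simp [ih]

theorem main : S_DEP := by
  intro p
  induction p using List.reverseRecOn with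
  | nil =>
    intro _
    refine ⟨rfl, rfl, ?_⟩
    intro v h1 h2
    simp at h2
    omega
  | append_singleton p q ih =>
    intro hp
    have hp' : IsTreeCode p := by
      intro i hi
      have := hp i (by simp; omega)
      rwa [List.getElem_append_left hi] at this
    have hq : q ≤ p.length := by
      have := hp p.length (by simp)
      simpa using this
    obtain ⟨h1, h2, h3⟩ := ih hp'
    have hdep : ∀ v ≤ p.length, dep (p ++ [q]) v = dep p v := by
      intro v hv
      unfold dep
      rw [deps_append, List.getD_append _ _ _ _ (by omega)]
    have hpar : ∀ v ≤ p.length, par (p ++ [q]) v = par p v := by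
      intro v hv
      unfold par
      by_cases h0 : v = 0
      · simp [h0]
      · rw [if_neg h0, if_neg h0, List.getD_append _ _ _ _ (by omega)]
    refine ⟨by rw [deps_length], by rw [hdep 0 (Nat.zero_le _), h2], ?_⟩
    intro v hv1 hv2
    rw [List.length_append, List.length_singleton] at hv2
    rcases Nat.lt_or_ge p.length v with h | h
    · have hv : v = p.length + 1 := by omega
      subst hv
      have e1 : par (p ++ [q]) (p.length + 1) = q := by
        unfold par
        simp
      rw [e1]
      refine ⟨by omega, ?_⟩
      rw [hdep q hq]
      unfold dep
      rw [deps_append]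
      have := h1
      rw [List.getD_append_right _ _ _ _ (by omega), h1]
      simp
    · rw [hpar v h, hdep v h]
      obtain ⟨h4, h5⟩ := h3 v hv1 h
      exact ⟨h4, by rw [h5, hdep _ (by omega)]⟩

end Pool.FF.DEP
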