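import Pool.Graph.R_seed8.H633R2.FptDefs

/-!
# Firefighter on trees: the definitions used in the statement

The machine model is Mathlib's `Turing.TM2` (multi-stack machines); `TmRuns M x y t` says that the
machine `M`, started with the bit string `x`, stops with the bit string `y` within `t` steps.
Instances are coded by bit strings with `bits` (lists, pairs, booleans; numbers in binary).
-/

namespace Pool.FF

open Turing Pool.Agent.NPC Pool.Agent.H633R2

/-! ### The firefighter process -/

section

variable {V : Type}

/-- The set of vertices on fire after `t` steps, when the fire starts at `s` and the vertices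
`l[0], l[1], l[2], …` are protected at the steps `1, 2, 3, …`: at step `t + 1` the fire spreads from
every burning vertex to all its neighbours which are not among the first `t + 1` vertices of `l`.
(When the list `l` is exhausted, no further vertices are protected.) -/
def fire (G : SimpleGraph V) (s : V) (l : List V) : ℕ → Set V
  | 0 => {s}
  | t + 1 => fire G s l t ∪ {v | v ∉ l.take (t + 1) ∧ ∃ u ∈ fire G s l t, G.Adj u v}

/-- `l` is a strategy: the vertex protected at step `t + 1` is not on fire at that moment. -/
def IsStrategy (G : SimpleGraph V) (s : V) (l : List V) : Prop :=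
  ∀ t, ∀ h : t < l.length, l[t] ∉ fire G s l t

/-- The vertices which burn. The others are saved. -/
def burned (G : SimpleGraph V) (s : V) (l : List V) : Set V := {v | ∃ t, v ∈ fire G s l t}

/-- Some strategy saves at least `k` vertices. -/
def SavesAtLeast (G : SimpleGraph V) (s : V) (k : ℕ) : Prop :=
  ∃ l : List V, IsStrategy G s l ∧ k ≤ ((burned G s l)ᶜ).ncard

/-- Some strategy saves all but at most `k` vertices. -/
def BurnsAtMost (G : SimpleGraph V) (s : V) (k : ℕ) : Prop :=
  ∃ l : List V, IsStrategy G s l ∧ (burned G s l).ncard ≤ k

/-- Some strategy which protects at most `k` vertices saves at least `K` vertices. -/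
def ProtectSaves (G : SimpleGraph V) (s : V) (k K : ℕ) : Prop :=
  ∃ l : List V, IsStrategy G s l ∧ l.length ≤ k ∧ K ≤ ((burned G s l)ᶜ).ncard

end

/-! ### Trees as instances -/

/-- Codes of rooted trees: the vertices are `0, 1, …, p.length`, the root is `0`, and the parent of
the vertex `i + 1` is `p[i]`, which is at most `i`. -/
def IsTreeCode (p : List ℕ) : Prop := ∀ i, ∀ h : i < p.length, p[i] ≤ i

/-- The tree with code `p`. -/
def codeTree (p : List ℕ) : SimpleGraph (Fin (p.length + 1)) :=
  SimpleGraph.fromRel (fun u v => ∃ i, ∃ h : i < p.length, v.1 = i + 1 ∧ u.1 = p[i])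

/-! ### Running times -/

/-- Some Turing machine decides the question `P` on the instances satisfying `ok` (a promise: on
other inputs nothing is required), within `T a` steps on the instance `a`. -/
def DecidedIn {α : Type} [TEnc α] (ok P : α → Prop) (T : α → ℕ) : Prop :=
  ∃ M : TM2ComputableAux Bool Bool, ∀ a, ok a → ∃ b : Bool, (b = true ↔ P a) ∧
    TmRuns M (bits a) (bits b) (T a)

/-- The question `P` with parameter `κ` is decided in time `2 ^ o(κ) * poly` (on the instances
satisfying `ok`). The function in the exponent need not be computable. -/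
def SubexpTime {α : Type} [TEnc α] (ok : α → Prop) (κ : α → ℕ) (P : α → Prop) : Prop :=
  ∃ (g : ℕ → ℕ) (q : Polynomial ℕ),
    Filter.Tendsto (fun k : ℕ => (g k : ℝ) / (k : ℝ)) Filter.atTop (nhds 0) ∧
    DecidedIn ok P (fun a => 2 ^ g (κ a) * q.eval (bits a).length)

/-! ### 3SAT and the Exponential Time Hypothesis -/

/-- Literals: `(x, true)` is the variable `x`, and `(x, false)` is its negation. -/
abbrev Lit : Type := ℕ × Bool

/-- Clauses with three literals. -/
abbrev Cl : Type := Lit × Lit × Lit

/-- Satisfiability of a list of clauses. -/
def Sat (φ : List Cl) : Prop :=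
  ∃ α : ℕ → Bool, ∀ c ∈ φ, α c.1.1 = c.1.2 ∨ α c.2.1.1 = c.2.1.2 ∨ α c.2.2.1 = c.2.2.2

/-- 3SAT with `m` clauses is decided in time `2 ^ (m / r) * poly`, for every `r`. By the
sparsification lemma of Impagliazzo, Paturi and Zane this is excluded by the Exponential Time
Hypothesis. -/
def EthFails : Prop :=
  ∀ r : ℕ, 0 < r → ∃ q : Polynomial ℕ,
    DecidedIn (fun _ => True) Sat (fun φ : List Cl => 2 ^ (φ.length / r) * q.eval (bits φ).length)

end Pool.FF
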