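import Pool.Agent.Helper86.FF.Spec

/-!
# ETH: the running time of the composed algorithm
-/

namespace Pool.FF.ETH

open Pool.FF Turing Pool.Agent.NPC Pool.Agent.NPC.H633 Pool.Agent.H633R2

set_option maxHeartbeats 4000000
set_option synthInstance.maxHeartbeats 400000

/-- A function which is `o(k)` is at most `k / N` up to a constant. -/
theorem small_o {g : ℕ → ℕ}
    (hg : Filter.Tendsto (fun k : ℕ => (g k : ℝ) / (k : ℝ)) Filter.atTop (nhds 0)) (N : ℕ)
    (hN : 0 < N) : ∃ G : ℕ, ∀ k, g k * N ≤ k + G * N := by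
  have h1 : ∀ᶠ k : ℕ in Filter.atTop, (g k : ℝ) / (k : ℝ) < 1 / N :=
    hg.eventually (gt_mem_nhds (by positivity))
  obtain ⟨k0, hk0⟩ := Filter.eventually_atTop.1 h1
  refine ⟨∑ k ∈ Finset.range (k0 + 1), g k, fun k => ?_⟩
  by_cases hk : k < k0 + 1
  · have h2 : g k ≤ ∑ k ∈ Finset.range (k0 + 1), g k :=
      Finset.single_le_sum (f := g) (fun _ _ => Nat.zero_le _) (Finset.mem_range.2 hk)
    have := Nat.mul_le_mul_right N h2
    omega
  · have h2 := hk0 k (by omega)
    have hk1 : (0 : ℝ) < k := by exact_mod_cast (by omega : 0 < k)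
    have hN1 : (0 : ℝ) < N := by exact_mod_cast hN
    rw [div_lt_div_iff₀ hk1 hN1, one_mul] at h2
    have h3 : g k * N < k := by exact_mod_cast h2
    omega

theorem pow_aux (a w d X : ℕ) :
    2 ^ (a + w) * (2 ^ (a + d) * X) = 2 ^ (a + a) * (2 ^ (w + d) * X) := by
  rw [pow_add, pow_add, pow_add, pow_add]; ring

theorem gg_upoly : UPoly (fun x : List Unit × List Cl => gg x.1.length x.2) := by
  unfold gg
  refine UPoly.add ?_ (UPoly.const 1)
  refine UPoly.of_le (n := fun x : List Unit × List Cl => 3 * x.2.length) ?_ ?_ ?_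
  · exact Poly.div (Poly.mul (Pool.Agent.NPC.Poly.const 3) (Poly.length (Poly.snd Poly.id)))
      (Poly.length (Poly.fst Poly.id))
  · exact UPoly.mul (UPoly.const 3) (UPoly.length (Poly.snd Poly.id))
  · intro a
    exact Nat.div_le_self _ _

theorem main (hPAD : S_PAD) : S_ETH := by
  intro β _ ok P κ F C hF hspec hsub r hr
  obtain ⟨g, q, hg, M, hM⟩ := hsub
  obtain ⟨c, Q, hc⟩ := hPAD (List Unit × List Cl) β (fun x => gg x.1.length x.2) gg_upoly F hF
  set Q1 : Polynomial ℕ := Polynomial.X + Q with hQ1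
  set S : Polynomial ℕ := Q + Q1 + q.comp Q1 + 1 with hS
  set D := S.natDegree with hD
  set W := 6 * r * (D + 1) with hW
  have hW0 : 0 < W := by positivity
  set L := C * W with hL
  obtain ⟨G, hG⟩ := small_o hg (2 * r * (L + 1)) (by positivity)
  -- the three programs
  obtain ⟨c0, P0, hc0⟩ : Pool.Agent.NPC.Poly (fun φ : List Cl => (List.replicate W (), φ)) :=
    Poly.pair (Pool.Agent.NPC.Poly.const _) Poly.id
  choose b hb1 hb2 using fun φ : List Cl =>
    hM (F ((List.replicate W (), φ), List.replicate (2 ^ gg W φ) ())) (hspec W φ hW0).1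
  obtain ⟨prog, cM, hprog⟩ := toCmd
    (ea := fun φ : List Cl => bits (F ((List.replicate W (), φ), List.replicate (2 ^ gg W φ) ())))
    (eb := fun b : Bool => bits b) (f := b) M _ hb2
  have hrun : ∀ φ : List Cl, Runs (Cmd.seq c0 (Cmd.seq c prog)) (inp (bits φ)) (inp (bits (b φ)))
      (P0.eval (bits φ).length + (Q.eval (sz (List.replicate W (), φ) + 2 ^ gg W φ) +
        cM * ((bits (F ((List.replicate W (), φ), List.replicate (2 ^ gg W φ) ()))).length +
          2 ^ g (κ (F ((List.replicate W (), φ), List.replicate (2 ^ gg W φ) ()))) *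
            q.eval (bits (F ((List.replicate W (), φ),
              List.replicate (2 ^ gg W φ) ()))).length + 1))) := by
    intro φ
    have h2 := hc (List.replicate W (), φ)
    simp only [List.length_replicate] at h2
    exact (hc0 φ).seq (h2.seq (hprog φ))
  obtain ⟨M', hM'⟩ := toTm (ea := fun φ : List Cl => bits φ) (eb := fun b : Bool => bits b)
    (f := b) _ _ hrun
  refine ⟨P0 + Polynomial.C ((cM + 1) * 2 ^ (W + 1 + G + D)) *
    S.comp (Polynomial.X + Polynomial.C (2 * W + 3)) + 1, M', fun φ _ => ⟨b φ, ?_, ?_⟩⟩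
  · rw [hb1 φ]
    exact (hspec W φ hW0).2.1
  · obtain ⟨h⟩ := hM' φ
    refine ⟨Pool.Agent.NPC.outputs_conv rfl rfl ?_ h⟩
    -- the length of the new instance
    have hlen : (bits (F ((List.replicate W (), φ), List.replicate (2 ^ gg W φ) ()))).length ≤
        Q1.eval (sz (List.replicate W (), φ) + 2 ^ gg W φ) := by
      have h2 := hc (List.replicate W (), φ)
      simp only [List.length_replicate] at h2
      obtain ⟨t, ht, hr'⟩ := h2
      have h3 := hr'.length_le 0
      simp only [inp, Function.update_self] at h3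
      have h4 : (bits (List.replicate W (), φ)).length = sz (List.replicate W (), φ) := rfl
      rw [hQ1, Polynomial.eval_add, Polynomial.eval_X]
      have h5 := Nat.zero_le (2 ^ gg W φ)
      generalize 2 ^ gg W φ = E at *
      omega
    have hk := (hspec W φ hW0).2.2
    generalize hY : F ((List.replicate W (), φ), List.replicate (2 ^ gg W φ) ()) = Y at *
    set Z := sz (List.replicate W (), φ) + 2 ^ gg W φ with hZ
    set m := φ.length with hm
    -- the exponent
    have hgk : g (κ Y) ≤ m / (2 * r) + (W + 1 + G) := by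
      have h1 := hG (κ Y)
      have h2 : κ Y ≤ (L + 1) * (m + W) := hk.trans (Nat.mul_le_mul_right _ (Nat.le_succ _))
      have h3 : g (κ Y) * (2 * r) * (L + 1) ≤ ((m + W) + G * (2 * r)) * (L + 1) := by
        calc g (κ Y) * (2 * r) * (L + 1) = g (κ Y) * (2 * r * (L + 1)) := by ring
          _ ≤ κ Y + G * (2 * r * (L + 1)) := h1
          _ ≤ (L + 1) * (m + W) + G * (2 * r * (L + 1)) := Nat.add_le_add_right h2 _
          _ = _ := by ring
      have h4 : g (κ Y) * (2 * r) ≤ (m + W) + G * (2 * r) :=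
        Nat.le_of_mul_le_mul_right h3 (Nat.succ_pos _)
      have h5 : m < (m / (2 * r) + 1) * (2 * r) := by
        rw [Nat.add_mul, one_mul]
        exact Nat.lt_div_mul_add (by positivity)
      have h6 : W ≤ W * (2 * r) := Nat.le_mul_of_pos_right _ (by positivity)
      have h7 : g (κ Y) * (2 * r) ≤ (m / (2 * r) + (W + 1 + G)) * (2 * r) := by
        have e : (m / (2 * r) + (W + 1 + G)) * (2 * r) =
          (m / (2 * r) + 1) * (2 * r) + W * (2 * r) + G * (2 * r) := by ring
        rw [e]
        omega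
      exact Nat.le_of_mul_le_mul_right h7 (by positivity)
    have hge : gg W φ * D ≤ m / (2 * r) + D := by
      unfold gg
      rw [← hm]
      have h1 : 3 * m / W * W ≤ 3 * m := Nat.div_mul_le_self _ _
      have h2 : 3 * m / W * D ≤ m / (2 * r) := by
        rw [Nat.le_div_iff_mul_le (by positivity)]
        have h3 : 3 * m / W * D * (2 * r) ≤ 3 * m / W * (D + 1) * (2 * r) :=
          Nat.mul_le_mul_right _ (Nat.mul_le_mul_left _ (Nat.le_succ _))
        have h4 : 3 * (3 * m / W * (D + 1) * (2 * r)) = 3 * m / W * W := by rw [hW]; ring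
        omega
      rw [Nat.add_mul, one_mul]
      omega
    have hhalf : m / (2 * r) + m / (2 * r) ≤ m / r := by
      rw [Nat.le_div_iff_mul_le hr]
      have : m / (2 * r) * (2 * r) ≤ m := Nat.div_mul_le_self _ _
      calc (m / (2 * r) + m / (2 * r)) * r = m / (2 * r) * (2 * r) := by ring
        _ ≤ m := this
    -- the polynomials
    have hZ1 : Z ≤ 2 ^ gg W φ * (sz (List.replicate W (), φ) + 1) := by
      rw [hZ]
      have : 1 ≤ 2 ^ gg W φ := Nat.one_le_two_pow
      nlinarith
    have hSZ : S.eval Z ≤ (2 ^ gg W φ) ^ D * S.eval (sz (List.replicate W (), φ) + 1) :=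
      (eval_mono S hZ1).trans (eval_mul_le S Nat.one_le_two_pow)
    have hsz : sz (List.replicate W (), φ) + 1 = (bits φ).length + (2 * W + 3) := by
      rw [sz_pair, sz_replicate_unit]
      have : (bits φ).length = sz φ := rfl
      omega
    rw [hsz] at hSZ
    have h2p : (2 ^ gg W φ) ^ D ≤ 2 ^ (m / (2 * r) + D) := by
      rw [← pow_mul]
      exact Nat.pow_le_pow_right (by norm_num) hge
    have hgp : 2 ^ g (κ Y) ≤ 2 ^ (m / (2 * r) + (W + 1 + G)) :=
      Nat.pow_le_pow_right (by norm_num) hgk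
    -- the total
    have hq : q.eval (bits Y).length ≤ (q.comp Q1).eval Z := by
      rw [Polynomial.eval_comp]
      exact eval_mono q hlen
    have hSe : S.eval Z = Q.eval Z + Q1.eval Z + (q.comp Q1).eval Z + 1 := by
      rw [hS]; simp only [Polynomial.eval_add, Polynomial.eval_one]
    have hA1 : 1 ≤ 2 ^ g (κ Y) := Nat.one_le_two_pow
    have ht : Q.eval Z + cM * ((bits Y).length + 2 ^ g (κ Y) * q.eval (bits Y).length + 1) ≤
        (cM + 1) * (2 ^ g (κ Y) * S.eval Z) := by
      generalize 2 ^ g (κ Y) = E at *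
      generalize Q.eval Z = x1 at *
      generalize Q1.eval Z = x2 at *
      generalize (q.comp Q1).eval Z = x3 at *
      generalize q.eval (bits Y).length = y at *
      generalize (bits Y).length = n at *
      rw [hSe]
      have e1 : n + E * y + 1 ≤ E * (x1 + x2 + x3 + 1) := by nlinarith
      have e2 : x1 ≤ E * (x1 + x2 + x3 + 1) := by nlinarith
      have e3 := Nat.mul_le_mul_left cM e1
      calc x1 + cM * (n + E * y + 1) ≤ E * (x1 + x2 + x3 + 1) +
            cM * (E * (x1 + x2 + x3 + 1)) := Nat.add_le_add e2 e3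
        _ = _ := by ring
    have hfin : 2 ^ g (κ Y) * S.eval Z ≤ 2 ^ (m / r) * (2 ^ (W + 1 + G + D) *
        S.eval ((bits φ).length + (2 * W + 3))) := by
      calc 2 ^ g (κ Y) * S.eval Z ≤ 2 ^ (m / (2 * r) + (W + 1 + G)) *
            (2 ^ (m / (2 * r) + D) * S.eval ((bits φ).length + (2 * W + 3))) :=
            Nat.mul_le_mul hgp (hSZ.trans (Nat.mul_le_mul_right _ h2p))
        _ = 2 ^ (m / (2 * r) + m / (2 * r)) * (2 ^ (W + 1 + G + D) *
            S.eval ((bits φ).length + (2 * W + 3))) := pow_aux _ _ _ _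
        _ ≤ _ := Nat.mul_le_mul_right _ (Nat.pow_le_pow_right (by norm_num) hhalf)
    simp only [Polynomial.eval_add, Polynomial.eval_mul, Polynomial.eval_C, Polynomial.eval_comp,
      Polynomial.eval_X, Polynomial.eval_one]
    have hE1 : 1 ≤ 2 ^ (m / r) := Nat.one_le_two_pow
    generalize 2 ^ (m / r) = E at *
    generalize P0.eval (bits φ).length = x0 at *
    have e1 : x0 ≤ E * x0 := Nat.le_mul_of_pos_left _ hE1
    have e2 := Nat.mul_le_mul_left (cM + 1) hfin
    calc x0 + (Q.eval Z + cM * ((bits Y).length + 2 ^ g (κ Y) * q.eval (bits Y).length + 1)) + 1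
        ≤ E * x0 + (cM + 1) * (E * (2 ^ (W + 1 + G + D) *
          S.eval ((bits φ).length + (2 * W + 3)))) + E := by omega
      _ = _ := by ring

end Pool.FF.ETH
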