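import Pool.Agent.Helper86.FF.PRE

/-!
# FWDL: the strategy for a satisfiable formula
-/

namespace Pool.FF.FWDL

open Pool.FF

set_option maxHeartbeats 4000000
set_option synthInstance.maxHeartbeats 400000

section generic

variable {D : Type} (ch : ℕ → D → List D) (good : D → Bool) (r : D)

theorem fr_succ (t : ℕ) : fr ch good r (t + 1) =
    (fr ch good r t).flatMap (fun x => (ch t x).filter good) := by
  rw [fr, List.filter_flatMap]

theorem pr_len (t : ℕ) : (pr ch good r t).length =
    ((fr ch good r t).map (fun x => ((ch t x).filter (fun y => !good y)).length)).sum := by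
  rw [pr, List.filter_flatMap, List.length_flatMap]

end generic

theorem sum_map_flatMap {A B : Type} (l : List A) (h : A → List B) (f : B → ℕ) :
    ((l.flatMap h).map f).sum = (l.map (fun a => ((h a).map f).sum)).sum := by
  induction l with
  | nil => rfl
  | cons a l ih => simp [List.flatMap_cons, List.map_append, List.sum_append, ih]

theorem flatMap_congr' {A B : Type} {l : List A} {f h : A → List B} (H : ∀ a ∈ l, f a = h a) :
    l.flatMap f = l.flatMap h := by
  induction l with
  | nil => rfl
  | cons a l ih =>
    rw [List.flatMap_cons, List.flatMap_cons, H a List.mem_cons_self,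
      ih (fun x hx => H x (List.mem_cons_of_mem _ hx))]

/-- Sum of an indicator. -/
theorem sum_ind_le (W c v : ℕ) :
    ((List.range W).map (fun j => if c = j then v else 0)).sum ≤ v := by
  have : ((List.range W).map (fun j => if c = j then v else 0)).sum =
      if c < W then v else 0 := by
    induction W with
    | zero => simp
    | succ W ih =>
      rw [List.range_succ, List.map_append, List.sum_append, ih]
      simp only [List.map_cons, List.map_nil, List.sum_cons, List.sum_nil]
      by_cases h1 : c < W
      · rw [if_pos h1, if_neg (by omega), if_pos (by omega)]; omega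
      · by_cases h2 : c = W
        · rw [if_neg h1, if_pos h2, if_pos (by omega)]; omega
        · rw [if_neg h1, if_neg h2, if_neg (by omega)]; omega
  rw [this]
  split_ifs <;> omega

section

variable (g : ℕ) (bit : ℕ → Bool)

/-- The full label of the track `j`. -/
def FL (j : ℕ) : List Bool := (List.range g).map (fun r => bit (j * g + r))

theorem FL_length (j : ℕ) : (FL g bit j).length = g := by simp [FL]

/-- The label of the track `j` before the block `b`. -/
def pre (j b : ℕ) : List Bool := (FL g bit j).take (b - j * g)

def good (x : Dt) : Bool :=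
  if x.1 = true then decide (x.2.2 = (FL g bit x.2.1).take x.2.2.length) else decide (x.2.1 ≠ 1)

theorem good_pre (j b : ℕ) : good g bit (true, j, pre g bit j b) = true := by
  simp only [good, if_true, decide_eq_true_eq]
  unfold pre
  rw [List.length_take]
  by_cases h : b - j * g ≤ (FL g bit j).length
  · rw [Nat.min_eq_left h]
  · rw [Nat.min_eq_right (by omega), List.take_of_length_le (by omega), List.take_length]

theorem good_side (r : ℕ) (a : List Bool) : good g bit (false, r, a) = decide (r ≠ 1) := by
  simp [good]

theorem pre_succ_ne {j b : ℕ} (hg : 0 < g) (hj : j ≠ b / g) :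
    pre g bit j (b + 1) = pre g bit j b := by
  unfold pre
  have h1 := Nat.div_add_mod b g
  have h2 := Nat.mod_lt b hg
  rcases Nat.lt_or_ge j (b / g) with h | h
  · -- finished track
    have h3 : (j + 1) * g ≤ b := by
      calc (j + 1) * g ≤ b / g * g := Nat.mul_le_mul_right _ h
        _ ≤ b := Nat.div_mul_le_self _ _
    rw [Nat.add_mul, one_mul] at h3
    rw [List.take_of_length_le (by rw [FL_length]; omega),
      List.take_of_length_le (by rw [FL_length]; omega)]
  · have h3 : (b / g + 1) * g ≤ j * g := Nat.mul_le_mul_right _ (by omega)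
    rw [Nat.add_mul, one_mul, mul_comm (b / g) g] at h3
    have e1 : b + 1 - j * g = 0 := by omega
    have e2 : b - j * g = 0 := by omega
    rw [e1, e2]

theorem pre_succ_eq {b : ℕ} (hg : 0 < g) :
    pre g bit (b / g) (b + 1) = pre g bit (b / g) b ++ [bit b] ∧
      (pre g bit (b / g) b).length + 1 = b + 1 - b / g * g := by
  have h1 := Nat.div_add_mod b g
  have h2 := Nat.mod_lt b hg
  rw [mul_comm] at h1
  unfold pre
  have e1 : b + 1 - b / g * g = b % g + 1 := by omega
  have e2 : b - b / g * g = b % g := by omega
  rw [e1, e2]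
  constructor
  · rw [List.take_succ_eq_append_getElem (by rw [FL_length]; exact h2)]
    congr 2
    simp only [FL, List.getElem_map, List.getElem_range]
    rw [h1]
  · rw [List.length_take, FL_length, Nat.min_eq_left h2.le]

theorem pre_full {W j b : ℕ} (hj : j < W) (hb : W * g ≤ b) : pre g bit j b = FL g bit j := by
  unfold pre
  have h3 : (j + 1) * g ≤ W * g := Nat.mul_le_mul_right _ hj
  rw [Nat.add_mul, one_mul] at h3
  rw [List.take_of_length_le (by rw [FL_length]; omega)]

theorem FL_getD (i : ℕ) (hg : 0 < g) : (FL g bit (i / g)).getD (i % g) false = bit i := by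
  have h1 := Nat.div_add_mod i g
  have h2 := Nat.mod_lt i hg
  rw [mul_comm] at h1
  rw [List.getD_eq_getElem _ _ (by rw [FL_length]; exact h2)]
  simp only [FL, List.getElem_map, List.getElem_range]
  rw [h1]

/-- Main vertices before the block `b`. -/
def MM (W b : ℕ) : List Dt := (List.range W).map (fun j => (true, j, pre g bit j b))

end

/-- What a block does. -/
structure Blk (ch : ℕ → Dt → List Dt) (gd : Dt → Bool) (r : Dt) (W b : ℕ) (M' : List Dt) :
    Prop where
  next : fr ch gd r (4 + 3 * b) = M'
  p1 : (pr ch gd r (1 + 3 * b)).length ≤ 1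
  p2 : (pr ch gd r (1 + 3 * b)).length + (pr ch gd r (2 + 3 * b)).length ≤ 2
  p3 : (pr ch gd r (1 + 3 * b)).length + (pr ch gd r (2 + 3 * b)).length +
    (pr ch gd r (3 + 3 * b)).length ≤ 3
  f2 : (fr ch gd r (2 + 3 * b)).length ≤ W + 3
  f3 : (fr ch gd r (3 + 3 * b)).length ≤ W + 3

/-- The three steps of a block, from the steps of each track. -/
theorem blk_of (ch : ℕ → Dt → List Dt) (gd : Dt → Bool) (r : Dt) (W b : ℕ) (m m' : ℕ → Dt)
    (h : fr ch gd r (1 + 3 * b) = (List.range W).map m)
    (S1 S2 : ℕ → List Dt) (B0 B1 B2 : ℕ → ℕ)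
    (hS1 : ∀ j < W, (ch (1 + 3 * b) (m j)).filter gd = S1 j)
    (hB0 : ∀ j < W, ((ch (1 + 3 * b) (m j)).filter (fun y => !gd y)).length = B0 j)
    (hS2 : ∀ j < W, (S1 j).flatMap (fun x => (ch (2 + 3 * b) x).filter gd) = S2 j)
    (hB1 : ∀ j < W, ((S1 j).map (fun x =>
      ((ch (2 + 3 * b) x).filter (fun y => !gd y)).length)).sum = B1 j)
    (hS3 : ∀ j < W, (S2 j).flatMap (fun x => (ch (3 + 3 * b) x).filter gd) = [m' j])
    (hB2 : ∀ j < W, ((S2 j).map (fun x =>
      ((ch (3 + 3 * b) x).filter (fun y => !gd y)).length)).sum = B2 j)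
    (s1 : ((List.range W).map B0).sum ≤ 1)
    (s2 : ((List.range W).map B0).sum + ((List.range W).map B1).sum ≤ 2)
    (s3 : ((List.range W).map B0).sum + ((List.range W).map B1).sum +
      ((List.range W).map B2).sum ≤ 3)
    (l1 : ((List.range W).map (fun j => (S1 j).length)).sum ≤ W + 3)
    (l2 : ((List.range W).map (fun j => (S2 j).length)).sum ≤ W + 3) :
    Blk ch gd r W b ((List.range W).map m') := by
  have e1 : fr ch gd r (2 + 3 * b) = (List.range W).flatMap S1 := by
    rw [show 2 + 3 * b = (1 + 3 * b) + 1 by ring, fr_succ, h, List.flatMap_map]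
    exact flatMap_congr' (fun j hj => hS1 j (List.mem_range.1 hj))
  have e2 : fr ch gd r (3 + 3 * b) = (List.range W).flatMap S2 := by
    rw [show 3 + 3 * b = (2 + 3 * b) + 1 by ring, fr_succ, e1, List.flatMap_assoc]
    exact flatMap_congr' (fun j hj => hS2 j (List.mem_range.1 hj))
  have e3 : fr ch gd r (4 + 3 * b) = (List.range W).map m' := by
    rw [show 4 + 3 * b = (3 + 3 * b) + 1 by ring, fr_succ, e2, List.flatMap_assoc]
    rw [flatMap_congr' (fun j hj => hS3 j (List.mem_range.1 hj))]
    induction (List.range W) with
    | nil => rfl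
    | cons a l ih => rw [List.flatMap_cons, ih]; rfl
  have q0 : (pr ch gd r (1 + 3 * b)).length = ((List.range W).map B0).sum := by
    rw [pr_len, h, List.map_map]
    congr 1
    exact List.map_congr_left (fun j hj => hB0 j (List.mem_range.1 hj))
  have q1 : (pr ch gd r (2 + 3 * b)).length = ((List.range W).map B1).sum := by
    rw [pr_len, e1, sum_map_flatMap]
    congr 1
    exact List.map_congr_left (fun j hj => hB1 j (List.mem_range.1 hj))
  have q2 : (pr ch gd r (3 + 3 * b)).length = ((List.range W).map B2).sum := by
    rw [pr_len, e2, sum_map_flatMap]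
    congr 1
    exact List.map_congr_left (fun j hj => hB2 j (List.mem_range.1 hj))
  refine ⟨e3, by rw [q0]; exact s1, by rw [q0, q1]; exact s2, by rw [q0, q1, q2]; exact s3, ?_, ?_⟩
  · rw [e1, List.length_flatMap]; exact l1
  · rw [e2, List.length_flatMap]; exact l2

theorem sum_const_add (W c : ℕ) (f : ℕ → ℕ) :
    ((List.range W).map (fun j => f j + c)).sum = ((List.range W).map f).sum + W * c := by
  induction W with
  | zero => simp
  | succ W ih =>
    rw [List.range_succ, List.map_append, List.sum_append, ih, List.map_append, List.sum_append]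
    simp
    ring

/-- The block of a variable. -/
theorem blk_var (W g K H : ℕ) (cs : List Cl) (bit : ℕ → Bool) (hg : 0 < g) (b : ℕ)
    (hb : b < W * g) (hH : 4 + 3 * b ≤ H)
    (h : fr (chF W g cs K H) (good g bit) rootD (1 + 3 * b) = MM g bit W b) :
    Blk (chF W g cs K H) (good g bit) rootD W b (MM g bit W (b + 1)) := by
  have d1 : (1 + 3 * b - 1) / 3 = b := by omega
  have d2 : (2 + 3 * b - 1) / 3 = b := by omega
  have d3 : (3 + 3 * b - 1) / 3 = b := by omega
  have m1 : (1 + 3 * b - 1) % 3 = 0 := by omega
  have m2 : (2 + 3 * b - 1) % 3 = 1 := by omega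
  have m3 : (3 + 3 * b - 1) % 3 = 2 := by omega
  -- the children
  have c1 : ∀ j a, chF W g cs K H (1 + 3 * b) (true, j, a) =
      if j = b / g then [(true, j, a ++ [false]), (true, j, a ++ [true])] else [(true, j, a)] := by
    intro j a
    unfold chF
    rw [if_neg (by omega), if_neg (by simp), if_neg (by omega), d1, if_pos hb, m1]
    simp
  have c2 : ∀ j a, chF W g cs K H (2 + 3 * b) (true, j, a) =
      if j = b / g then [(false, 1, []), (false, 2, []), (true, j, a)] else [(true, j, a)] := by
    intro j a
    unfold chF
    rw [if_neg (by omega), if_neg (by simp), if_neg (by omega), d2, if_pos hb, m2]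
    simp
  have c3 : ∀ j a, chF W g cs K H (3 + 3 * b) (true, j, a) = [(true, j, a)] := by
    intro j a
    unfold chF
    rw [if_neg (by omega), if_neg (by simp), if_neg (by omega), d3, if_pos hb, m3]
    simp
  have c4 : chF W g cs K H (3 + 3 * b) (false, 2, []) = [(false, 1, [])] := by
    unfold chF
    rw [if_neg (by omega)]
    simp
  have gs1 : good g bit (false, 1, []) = false := by rw [good_side]; rfl
  have gs2 : good g bit (false, 2, []) = true := by rw [good_side]; rfl
  have hp1 : ∀ j, good g bit (true, j, pre g bit j (b + 1)) = true := fun j => good_pre g bit j _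
  refine blk_of _ _ _ W b (fun j => (true, j, pre g bit j b))
    (fun j => (true, j, pre g bit j (b + 1))) h
    (fun j => [(true, j, pre g bit j (b + 1))])
    (fun j => if b / g = j then [(false, 2, []), (true, j, pre g bit j (b + 1))]
      else [(true, j, pre g bit j (b + 1))])
    (fun j => if b / g = j then 1 else 0) (fun j => if b / g = j then 1 else 0)
    (fun j => if b / g = j then 1 else 0) ?_ ?_ ?_ ?_ ?_ ?_ ?_ ?_ ?_ ?_ ?_
  · intro j _
    rw [c1]
    by_cases hj : j = b / g
    · subst hj
      rw [if_pos rfl]
      obtain ⟨e1, e2⟩ := pre_succ_eq g bit (b := b) hg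
      have key : ∀ β : Bool, good g bit (true, b / g, pre g bit (b / g) b ++ [β]) =
          decide (β = bit b) := by
        intro β
        simp only [good, if_true]
        rw [List.length_append, List.length_singleton, e2]
        have : (FL g bit (b / g)).take (b + 1 - b / g * g) = pre g bit (b / g) (b + 1) := rfl
        rw [this, e1]
        simp
      cases hbit : bit b
      · rw [List.filter_cons_of_pos (by rw [key, hbit]; rfl),
          List.filter_cons_of_neg (by rw [key, hbit]; simp), List.filter_nil, e1, hbit]
      · rw [List.filter_cons_of_neg (by rw [key, hbit]; simp),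
          List.filter_cons_of_pos (by rw [key, hbit]; rfl), List.filter_nil, e1, hbit]
    · rw [if_neg hj, ← pre_succ_ne g bit hg hj, List.filter_cons_of_pos (hp1 j), List.filter_nil]
  · intro j _
    rw [c1]
    by_cases hj : j = b / g
    · subst hj
      rw [if_pos rfl, if_pos rfl]
      obtain ⟨e1, e2⟩ := pre_succ_eq g bit (b := b) hg
      have key : ∀ β : Bool, good g bit (true, b / g, pre g bit (b / g) b ++ [β]) =
          decide (β = bit b) := by
        intro β
        simp only [good, if_true]
        rw [List.length_append, List.length_singleton, e2]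
        have : (FL g bit (b / g)).take (b + 1 - b / g * g) = pre g bit (b / g) (b + 1) := rfl
        rw [this, e1]
        simp
      cases hbit : bit b
      · rw [List.filter_cons_of_neg (by rw [key, hbit]; simp),
          List.filter_cons_of_pos (by rw [key, hbit]; rfl)]; rfl
      · rw [List.filter_cons_of_pos (by rw [key, hbit]; rfl),
          List.filter_cons_of_neg (by rw [key, hbit]; simp)]; rfl
    · rw [if_neg hj, if_neg (fun h => hj h.symm), ← pre_succ_ne g bit hg hj,
        List.filter_cons_of_neg (by rw [hp1 j]; simp)]; rfl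
  · intro j _
    simp only [List.flatMap_cons, List.flatMap_nil, List.append_nil]
    rw [c2]
    by_cases hj : j = b / g
    · rw [if_pos hj, if_pos hj.symm, List.filter_cons_of_neg (by rw [gs1]; simp),
        List.filter_cons_of_pos gs2, List.filter_cons_of_pos (hp1 j), List.filter_nil]
    · rw [if_neg hj, if_neg (fun h => hj h.symm), List.filter_cons_of_pos (hp1 j), List.filter_nil]
  · intro j _
    simp only [List.map_cons, List.map_nil, List.sum_cons, List.sum_nil, Nat.add_zero]
    rw [c2]
    by_cases hj : j = b / g
    · rw [if_pos hj, if_pos hj.symm, List.filter_cons_of_pos (by rw [gs1]; rfl),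
        List.filter_cons_of_neg (by rw [gs2]; simp),
        List.filter_cons_of_neg (by rw [hp1 j]; simp)]; rfl
    · rw [if_neg hj, if_neg (fun h => hj h.symm),
        List.filter_cons_of_neg (by rw [hp1 j]; simp)]; rfl
  · intro j _
    by_cases hj : b / g = j
    · rw [if_pos hj]
      simp only [List.flatMap_cons, List.flatMap_nil, List.append_nil]
      rw [c4, c3, List.filter_cons_of_neg (by rw [gs1]; simp), List.filter_nil,
        List.filter_cons_of_pos (hp1 j), List.filter_nil]; rfl
    · rw [if_neg hj]
      simp only [List.flatMap_cons, List.flatMap_nil, List.append_nil]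
      rw [c3, List.filter_cons_of_pos (hp1 j), List.filter_nil]
  · intro j _
    by_cases hj : b / g = j
    · rw [if_pos hj, if_pos hj]
      simp only [List.map_cons, List.map_nil, List.sum_cons, List.sum_nil]
      rw [c4, c3, List.filter_cons_of_pos (by rw [gs1]; rfl), List.filter_nil,
        List.filter_cons_of_neg (by rw [hp1 j]; simp), List.filter_nil]; rfl
    · rw [if_neg hj, if_neg hj]
      simp only [List.map_cons, List.map_nil, List.sum_cons, List.sum_nil]
      rw [c3, List.filter_cons_of_neg (by rw [hp1 j]; simp), List.filter_nil]; rfl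
  · exact sum_ind_le W (b / g) 1
  · have := sum_ind_le W (b / g) 1; omega
  · have := sum_ind_le W (b / g) 1; omega
  · simp
  · have e : (fun j => (if b / g = j then [((false, 2, []) : Dt), (true, j, pre g bit j (b + 1))]
        else [(true, j, pre g bit j (b + 1))]).length) =
        fun j => (if b / g = j then 1 else 0) + 1 := by
      funext j
      split_ifs <;> rfl
    rw [e, sum_const_add]
    have := sum_ind_le W (b / g) 1
    omega

set_option linter.unusedVariables false in
/-- The value of a literal under the full labels. -/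
def val (g : ℕ) (bit : ℕ → Bool) (l : Lit) : Prop := bit l.1 = l.2

instance (g : ℕ) (bit : ℕ → Bool) (l : Lit) : Decidable (val g bit l) := by
  unfold val; infer_instance

theorem litSide_eq (g : ℕ) (bit : ℕ → Bool) (hg : 0 < g) (j : ℕ) (l : Lit) :
    litSide g j (FL g bit j) l =
      if l.1 / g = j then [(false, if val g bit l then 3 else 2, [])] else [] := by
  unfold litSide
  by_cases h : l.1 / g = j
  · rw [if_pos h, if_pos h, ← h, FL_getD g bit l.1 hg]; rfl
  · rw [if_neg h, if_neg h]

theorem sum_map_add3 (l : List ℕ) (f1 f2 f3 : ℕ → ℕ) :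
    (l.map (fun j => f1 j + f2 j + f3 j)).sum = (l.map f1).sum + (l.map f2).sum +
      (l.map f3).sum := by
  induction l with
  | nil => rfl
  | cons a l ih => simp only [List.map_cons, List.sum_cons, ih]; ring

/-- The indicator with a condition. -/
theorem sum_ind_and (W c : ℕ) (P : Prop) [Decidable P] :
    ((List.range W).map (fun j => if c = j ∧ P then 1 else 0)).sum ≤ if P then 1 else 0 := by
  by_cases hP : P
  · simp only [hP, and_true, if_true]
    exact sum_ind_le W c 1
  · simp [hP]

/-- The block of a clause. -/
theorem blk_cl (W g K H : ℕ) (cs : List Cl) (bit : ℕ → Bool) (hg : 0 < g) (b : ℕ)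
    (hb : W * g ≤ b) (hH : 4 + 3 * b ≤ H) (c : Cl) (hc : cs.getD (b - W * g) default = c)
    (hsat : val g bit c.1 ∨ val g bit c.2.1 ∨ val g bit c.2.2)
    (h : fr (chF W g cs K H) (good g bit) rootD (1 + 3 * b) = MM g bit W b) :
    Blk (chF W g cs K H) (good g bit) rootD W b (MM g bit W (b + 1)) := by
  have d1 : (1 + 3 * b - 1) / 3 = b := by omega
  have d2 : (2 + 3 * b - 1) / 3 = b := by omega
  have d3 : (3 + 3 * b - 1) / 3 = b := by omega
  have m1 : (1 + 3 * b - 1) % 3 = 0 := by omega
  have m2 : (2 + 3 * b - 1) % 3 = 1 := by omega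
  have m3 : (3 + 3 * b - 1) % 3 = 2 := by omega
  have c1 : ∀ j a, chF W g cs K H (1 + 3 * b) (true, j, a) =
      litSide g j a c.1 ++ litSide g j a c.2.1 ++ litSide g j a c.2.2 ++ [(true, j, a)] := by
    intro j a
    unfold chF
    rw [if_neg (by omega), if_neg (by simp), if_neg (by omega), d1, if_neg (by omega), m1, hc]
    simp
  have c2 : ∀ j a, chF W g cs K H (2 + 3 * b) (true, j, a) = [(true, j, a)] := by
    intro j a
    unfold chF
    rw [if_neg (by omega), if_neg (by simp), if_neg (by omega), d2, if_neg (by omega), m2]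
    simp
  have c3 : ∀ j a, chF W g cs K H (3 + 3 * b) (true, j, a) = [(true, j, a)] := by
    intro j a
    unfold chF
    rw [if_neg (by omega), if_neg (by simp), if_neg (by omega), d3, if_neg (by omega), m3]
    simp
  have c4 : ∀ d, 1 ≤ d → chF W g cs K H d (false, 2, []) = [(false, 1, [])] := by
    intro d hd
    unfold chF
    rw [if_neg (by omega)]
    simp
  have c5 : ∀ d, 1 ≤ d → chF W g cs K H d (false, 3, []) = [(false, 2, [])] := by
    intro d hd
    unfold chF
    rw [if_neg (by omega)]
    simp
  have gs1 : good g bit (false, 1, []) = false := by rw [good_side]; rfl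
  have gs2 : good g bit (false, 2, []) = true := by rw [good_side]; rfl
  have gs3 : good g bit (false, 3, []) = true := by rw [good_side]; rfl
  have hp : ∀ j < W, pre g bit j b = FL g bit j := fun j hj => pre_full g bit hj hb
  have hp' : ∀ j < W, pre g bit j (b + 1) = FL g bit j := fun j hj =>
    pre_full g bit hj (by omega)
  have hgm : ∀ j < W, good g bit (true, j, FL g bit j) = true := by
    intro j hj
    rw [← hp j hj]
    exact good_pre g bit j b
  -- one literal
  have L1 : ∀ j l, (litSide g j (FL g bit j) l).filter (good g bit) =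
      litSide g j (FL g bit j) l := by
    intro j l
    rw [litSide_eq g bit hg]
    by_cases h1 : l.1 / g = j
    · rw [if_pos h1]
      by_cases h2 : val g bit l
      · rw [if_pos h2, List.filter_cons_of_pos gs3, List.filter_nil]
      · rw [if_neg h2, List.filter_cons_of_pos gs2, List.filter_nil]
    · rw [if_neg h1, List.filter_nil]
  have L2 : ∀ j l, ((litSide g j (FL g bit j) l).filter (fun y => !good g bit y)) = [] := by
    intro j l
    rw [litSide_eq g bit hg]
    by_cases h1 : l.1 / g = j
    · rw [if_pos h1]
      by_cases h2 : val g bit l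
      · rw [if_pos h2, List.filter_cons_of_neg (by rw [gs3]; simp), List.filter_nil]
      · rw [if_neg h2, List.filter_cons_of_neg (by rw [gs2]; simp), List.filter_nil]
    · rw [if_neg h1, List.filter_nil]
  have L3 : ∀ j l, (litSide g j (FL g bit j) l).flatMap
      (fun x => (chF W g cs K H (2 + 3 * b) x).filter (good g bit)) =
      if l.1 / g = j ∧ val g bit l then [(false, 2, [])] else [] := by
    intro j l
    rw [litSide_eq g bit hg]
    by_cases h1 : l.1 / g = j
    · rw [if_pos h1]
      by_cases h2 : val g bit l
      · rw [if_pos h2, if_pos ⟨h1, h2⟩]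
        simp only [List.flatMap_cons, List.flatMap_nil, List.append_nil]
        rw [c5 _ (by omega), List.filter_cons_of_pos gs2, List.filter_nil]
      · rw [if_neg h2, if_neg (fun h => h2 h.2)]
        simp only [List.flatMap_cons, List.flatMap_nil, List.append_nil]
        rw [c4 _ (by omega), List.filter_cons_of_neg (by rw [gs1]; simp), List.filter_nil]
    · rw [if_neg h1, if_neg (fun h => h1 h.1)]; rfl
  have L4 : ∀ j l, ((litSide g j (FL g bit j) l).map (fun x =>
      ((chF W g cs K H (2 + 3 * b) x).filter (fun y => !good g bit y)).length)).sum =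
      if l.1 / g = j ∧ ¬ val g bit l then 1 else 0 := by
    intro j l
    rw [litSide_eq g bit hg]
    by_cases h1 : l.1 / g = j
    · rw [if_pos h1]
      by_cases h2 : val g bit l
      · rw [if_pos h2, if_neg (fun h => h.2 h2)]
        simp only [List.map_cons, List.map_nil, List.sum_cons, List.sum_nil]
        rw [c5 _ (by omega), List.filter_cons_of_neg (by rw [gs2]; simp), List.filter_nil]; rfl
      · rw [if_neg h2, if_pos ⟨h1, h2⟩]
        simp only [List.map_cons, List.map_nil, List.sum_cons, List.sum_nil]
        rw [c4 _ (by omega), List.filter_cons_of_pos (by rw [gs1]; rfl), List.filter_nil]; rfl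
    · rw [if_neg h1, if_neg (fun h => h1 h.1)]; rfl
  have L5 : ∀ (P : Prop) [Decidable P], (if P then [((false, 2, []) : Dt)] else []).flatMap
      (fun x => (chF W g cs K H (3 + 3 * b) x).filter (good g bit)) = [] := by
    intro P _
    by_cases hP : P
    · rw [if_pos hP]
      simp only [List.flatMap_cons, List.flatMap_nil, List.append_nil]
      rw [c4 _ (by omega), List.filter_cons_of_neg (by rw [gs1]; simp), List.filter_nil]
    · rw [if_neg hP]; rfl
  have L6 : ∀ (P : Prop) [Decidable P], ((if P then [((false, 2, []) : Dt)] else []).map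
      (fun x => ((chF W g cs K H (3 + 3 * b) x).filter (fun y => !good g bit y)).length)).sum =
      if P then 1 else 0 := by
    intro P _
    by_cases hP : P
    · rw [if_pos hP, if_pos hP]
      simp only [List.map_cons, List.map_nil, List.sum_cons, List.sum_nil]
      rw [c4 _ (by omega), List.filter_cons_of_pos (by rw [gs1]; rfl), List.filter_nil]; rfl
    · rw [if_neg hP, if_neg hP]; rfl
  have L7 : ∀ j l, (litSide g j (FL g bit j) l).length = if l.1 / g = j then 1 else 0 := by
    intro j l
    rw [litSide_eq g bit hg]
    split_ifs <;> rfl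
  have hT := fun l : Lit => sum_ind_and W (l.1 / g) (val g bit l)
  have hF := fun l : Lit => sum_ind_and W (l.1 / g) (¬ val g bit l)
  refine blk_of _ _ _ W b (fun j => (true, j, pre g bit j b))
    (fun j => (true, j, pre g bit j (b + 1))) h
    (fun j => litSide g j (FL g bit j) c.1 ++ litSide g j (FL g bit j) c.2.1 ++
      litSide g j (FL g bit j) c.2.2 ++ [(true, j, FL g bit j)])
    (fun j => (if c.1.1 / g = j ∧ val g bit c.1 then [(false, 2, [])] else []) ++
      (if c.2.1.1 / g = j ∧ val g bit c.2.1 then [(false, 2, [])] else []) ++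
      (if c.2.2.1 / g = j ∧ val g bit c.2.2 then [(false, 2, [])] else []) ++
      [(true, j, FL g bit j)])
    (fun j => 0)
    (fun j => (if c.1.1 / g = j ∧ ¬ val g bit c.1 then 1 else 0) +
      (if c.2.1.1 / g = j ∧ ¬ val g bit c.2.1 then 1 else 0) +
      (if c.2.2.1 / g = j ∧ ¬ val g bit c.2.2 then 1 else 0))
    (fun j => (if c.1.1 / g = j ∧ val g bit c.1 then 1 else 0) +
      (if c.2.1.1 / g = j ∧ val g bit c.2.1 then 1 else 0) +
      (if c.2.2.1 / g = j ∧ val g bit c.2.2 then 1 else 0))
    ?_ ?_ ?_ ?_ ?_ ?_ ?_ ?_ ?_ ?_ ?_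
  · intro j hj
    rw [hp j hj, c1]
    simp only [List.filter_append, L1]
    rw [List.filter_cons_of_pos (hgm j hj), List.filter_nil]
  · intro j hj
    rw [hp j hj, c1]
    simp only [List.filter_append, L2, List.nil_append]
    rw [List.filter_cons_of_neg (by rw [hgm j hj]; simp), List.filter_nil]; rfl
  · intro j hj
    simp only [List.flatMap_append, L3]
    congr 1
    simp only [List.flatMap_cons, List.flatMap_nil, List.append_nil]
    rw [c2, List.filter_cons_of_pos (hgm j hj), List.filter_nil]
  · intro j hj
    simp only [List.map_append, List.sum_append, L4]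
    simp only [List.map_cons, List.map_nil, List.sum_cons, List.sum_nil]
    rw [c2, List.filter_cons_of_neg (by rw [hgm j hj]; simp), List.filter_nil]; rfl
  · intro j hj
    simp only [List.flatMap_append, L5, List.nil_append]
    simp only [List.flatMap_cons, List.flatMap_nil, List.append_nil]
    rw [c3, List.filter_cons_of_pos (hgm j hj), List.filter_nil, hp' j hj]
  · intro j hj
    simp only [List.map_append, List.sum_append, L6]
    simp only [List.map_cons, List.map_nil, List.sum_cons, List.sum_nil]
    rw [c3, List.filter_cons_of_neg (by rw [hgm j hj]; simp), List.filter_nil]; rfl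
  · simp
  · rw [sum_map_add3]
    have e0 : ((List.range W).map (fun _ => 0)).sum = 0 := by simp
    rw [e0]
    have f1 := hF c.1
    have f2 := hF c.2.1
    have f3 := hF c.2.2
    rcases hsat with h1 | h1 | h1
    · rw [if_neg (not_not.2 h1)] at f1
      split_ifs at f2 f3 <;> omega
    · rw [if_neg (not_not.2 h1)] at f2
      split_ifs at f1 f3 <;> omega
    · rw [if_neg (not_not.2 h1)] at f3
      split_ifs at f1 f2 <;> omega
  · rw [sum_map_add3, sum_map_add3]
    have e0 : ((List.range W).map (fun _ => 0)).sum = 0 := by simp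
    rw [e0]
    have f1 := hF c.1
    have f2 := hF c.2.1
    have f3 := hF c.2.2
    have g1 := hT c.1
    have g2 := hT c.2.1
    have g3 := hT c.2.2
    have k1 : (if ¬ val g bit c.1 then 1 else 0) + (if val g bit c.1 then 1 else 0) = 1 := by
      split_ifs <;> rfl
    have k2 : (if ¬ val g bit c.2.1 then 1 else 0) + (if val g bit c.2.1 then 1 else 0) = 1 := by
      split_ifs <;> rfl
    have k3 : (if ¬ val g bit c.2.2 then 1 else 0) + (if val g bit c.2.2 then 1 else 0) = 1 := by
      split_ifs <;> rfl
    omega
  · have e : (fun j => (litSide g j (FL g bit j) c.1 ++ litSide g j (FL g bit j) c.2.1 ++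
      litSide g j (FL g bit j) c.2.2 ++ [((true, j, FL g bit j) : Dt)]).length) =
        fun j => ((if c.1.1 / g = j then 1 else 0) + (if c.2.1.1 / g = j then 1 else 0) +
          (if c.2.2.1 / g = j then 1 else 0)) + 1 := by
      funext j
      simp only [List.length_append, L7, List.length_singleton]
    rw [e, sum_const_add, sum_map_add3]
    have s1 := sum_ind_le W (c.1.1 / g) 1
    have s2 := sum_ind_le W (c.2.1.1 / g) 1
    have s3 := sum_ind_le W (c.2.2.1 / g) 1
    omega
  · have L8 : ∀ (P : Prop) [Decidable P], (if P then [((false, 2, []) : Dt)] else []).length =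
        if P then 1 else 0 := by
      intro P _
      split_ifs <;> rfl
    have e : (fun j => ((if c.1.1 / g = j ∧ val g bit c.1 then [((false, 2, []) : Dt)] else []) ++
      (if c.2.1.1 / g = j ∧ val g bit c.2.1 then [(false, 2, [])] else []) ++
      (if c.2.2.1 / g = j ∧ val g bit c.2.2 then [(false, 2, [])] else []) ++
      [(true, j, FL g bit j)]).length) =
        fun j => ((if c.1.1 / g = j ∧ val g bit c.1 then 1 else 0) +
          (if c.2.1.1 / g = j ∧ val g bit c.2.1 then 1 else 0) +
          (if c.2.2.1 / g = j ∧ val g bit c.2.2 then 1 else 0)) + 1 := by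
      funext j
      simp only [List.length_append, L8, List.length_singleton]
    rw [e, sum_const_add, sum_map_add3]
    have g1 := hT c.1
    have g2 := hT c.2.1
    have g3 := hT c.2.2
    split_ifs at g1 g2 g3 <;> omega

theorem main : S_FWDL := by
  intro W φ hW hs
  obtain ⟨α, hα⟩ := hs
  have hg : 0 < gg W φ := Nat.succ_pos _
  obtain ⟨q1, q2, q3, -⟩ := Pool.FF.PRE.main φ
  have q2' := Pool.FF.PRE.ix_spec φ
  generalize hgd : gg W φ = g at *
  set bit : ℕ → Bool := fun i => α ((occ φ).getD i 0) with hbit
  set K := KK W φ with hK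
  have hH : HH W φ = 1 + 3 * (W * g + φ.length) := by unfold HH; rw [hgd]
  generalize hHd : HH W φ = H at *
  have hch : chR W φ = chF W g (prep φ) K H := by unfold chR; rw [hgd, hHd]
  rw [hch]
  refine ⟨good g bit, ?_⟩
  set ch := chF W g (prep φ) K H with hchd
  set gd := good g bit with hgdd
  -- the clauses are satisfied
  have hsat : ∀ i < φ.length, val g bit ((prep φ).getD i default).1 ∨
      val g bit ((prep φ).getD i default).2.1 ∨ val g bit ((prep φ).getD i default).2.2 := by
    intro i hi
    have h1 : (prep φ).getD i default = ((ix φ φ[i].1.1, φ[i].1.2), (ix φ φ[i].2.1.1, φ[i].2.1.2),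
        (ix φ φ[i].2.2.1, φ[i].2.2.2)) := by
      rw [List.getD_eq_getElem _ _ (by rw [q1]; exact hi)]
      simp [prep]
    rw [h1]
    have hmem : φ[i] ∈ φ := List.getElem_mem hi
    have m1 : φ[i].1.1 ∈ occ φ := List.mem_flatMap.2 ⟨φ[i], hmem, by simp⟩
    have m2 : φ[i].2.1.1 ∈ occ φ := List.mem_flatMap.2 ⟨φ[i], hmem, by simp⟩
    have m3 : φ[i].2.2.1 ∈ occ φ := List.mem_flatMap.2 ⟨φ[i], hmem, by simp⟩
    have v : ∀ x ∈ occ φ, bit (ix φ x) = α x := by
      intro x hx
      rw [hbit]
      simp only
      rw [(q2' x hx).2]
    simp only [val]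
    rw [v _ m1, v _ m2, v _ m3]
    exact hα _ hmem
  -- the blocks
  have hfr1 : fr ch gd rootD 1 = MM g bit W 0 := by
    have e : ch 0 rootD = (false, 1, []) :: (List.range W).map (fun j => ((true, j, []) : Dt)) := by
      simp [hchd, chF]
    have e2 : (MM g bit W 0) = (List.range W).map (fun j => ((true, j, []) : Dt)) := by
      unfold MM
      refine List.map_congr_left (fun j _ => ?_)
      simp [pre]
    have e3 : ∀ x ∈ (List.range W).map (fun j => ((true, j, []) : Dt)), gd x = true := by
      intro x hx
      obtain ⟨j, _, rfl⟩ := List.mem_map.1 hx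
      simp [hgdd, good]
    rw [fr, fr, List.flatMap_cons, List.flatMap_nil, List.append_nil, e,
      List.filter_cons_of_neg (by rw [hgdd, good_side]; simp), List.filter_eq_self.2 e3, e2]
  have hpr0 : (pr ch gd rootD 0).length ≤ 1 := by
    have e : ch 0 rootD = (false, 1, []) :: (List.range W).map (fun j => ((true, j, []) : Dt)) := by
      simp [hchd, chF]
    have e3 : ((List.range W).map (fun j => ((true, j, []) : Dt))).filter (fun x => !gd x) = [] := by
      rw [List.filter_eq_nil_iff]
      intro x hx
      obtain ⟨j, _, rfl⟩ := List.mem_map.1 hx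
      simp [hgdd, good]
    rw [pr, fr, List.flatMap_cons, List.flatMap_nil, List.append_nil, e,
      List.filter_cons_of_pos (by rw [hgdd, good_side]; simp), e3]
    simp
  have hblk : ∀ b < W * g + φ.length, fr ch gd rootD (1 + 3 * b) = MM g bit W b →
      Blk ch gd rootD W b (MM g bit W (b + 1)) := by
    intro b hb hfr
    by_cases h1 : b < W * g
    · exact blk_var W g K H (prep φ) bit hg b h1 (by omega) hfr
    · exact blk_cl W g K H (prep φ) bit hg b (by omega) (by omega) _ rfl
        (hsat (b - W * g) (by omega)) hfr
  have hall : ∀ b ≤ W * g + φ.length, fr ch gd rootD (1 + 3 * b) = MM g bit W b ∧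
      (∀ t ≤ 1 + 3 * b, ∑ s ∈ Finset.range t, (pr ch gd rootD s).length ≤ t) ∧
      ∑ s ∈ Finset.range (1 + 3 * b), (fr ch gd rootD s).length ≤ 1 + b * (3 * W + 6) := by
    intro b
    induction b with
    | zero =>
      intro _
      refine ⟨hfr1, ?_, ?_⟩
      · intro t ht
        interval_cases t
        · simp
        · simpa using hpr0
      · simp [fr]
    | succ b ih =>
      intro hb
      obtain ⟨i1, i2, i3⟩ := ih (by omega)
      have hB := hblk b (by omega) i1
      have i4 := i2 (1 + 3 * b) le_rfl
      have hW' : (fr ch gd rootD (1 + 3 * b)).length = W := by rw [i1]; simp [MM]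
      have hp1 := hB.p1
      have hp2 := hB.p2
      have hp3 := hB.p3
      have hf2 := hB.f2
      have hf3 := hB.f3
      refine ⟨by rw [show 1 + 3 * (b + 1) = 4 + 3 * b by ring]; exact hB.next, ?_, ?_⟩
      · intro t ht
        rcases Nat.lt_or_ge (1 + 3 * b) t with h | h
        · have ht' : t = 2 + 3 * b ∨ t = 3 + 3 * b ∨ t = 4 + 3 * b := by omega
          have r2 : ∑ s ∈ Finset.range (2 + 3 * b), (pr ch gd rootD s).length =
              ∑ s ∈ Finset.range (1 + 3 * b), (pr ch gd rootD s).length +
                (pr ch gd rootD (1 + 3 * b)).length := by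
            rw [show 2 + 3 * b = (1 + 3 * b) + 1 by ring, Finset.sum_range_succ]
          have r3 : ∑ s ∈ Finset.range (3 + 3 * b), (pr ch gd rootD s).length =
              ∑ s ∈ Finset.range (2 + 3 * b), (pr ch gd rootD s).length +
                (pr ch gd rootD (2 + 3 * b)).length := by
            rw [show 3 + 3 * b = (2 + 3 * b) + 1 by ring, Finset.sum_range_succ]
          have r4 : ∑ s ∈ Finset.range (4 + 3 * b), (pr ch gd rootD s).length =
              ∑ s ∈ Finset.range (3 + 3 * b), (pr ch gd rootD s).length +
                (pr ch gd rootD (3 + 3 * b)).length := by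
            rw [show 4 + 3 * b = (3 + 3 * b) + 1 by ring, Finset.sum_range_succ]
          rcases ht' with h1 | h1 | h1
          · rw [h1, r2]; omega
          · rw [h1, r3, r2]; omega
          · rw [h1, r4, r3, r2]; omega
        · exact i2 t h
      · rw [show 1 + 3 * (b + 1) = (1 + 3 * b) + 1 + 1 + 1 by ring, Finset.sum_range_succ,
          Finset.sum_range_succ, Finset.sum_range_succ,
          show 1 + 3 * b + 1 + 1 = 3 + 3 * b by ring, show 1 + 3 * b + 1 = 2 + 3 * b by ring]
        rw [Nat.add_mul, one_mul]
        omega
  obtain ⟨i1, i2, i3⟩ := hall (W * g + φ.length) le_rfl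
  rw [← hH] at i1 i2 i3
  -- the last level
  have hlast : ∀ x ∈ fr ch gd rootD H, ch H x = [] := by
    intro x hx
    rw [i1] at hx
    obtain ⟨j, _, rfl⟩ := List.mem_map.1 hx
    simp only [hchd]
    unfold chF
    rw [if_neg (by omega), if_neg (by simp), if_pos le_rfl]
  have hfl : (fr ch gd rootD H).flatMap (ch H) = [] := by
    rw [List.flatMap_eq_nil_iff]; exact hlast
  have hprH : (pr ch gd rootD H).length = 0 := by rw [pr, hfl]; rfl
  have hfrH : (fr ch gd rootD (H + 1)).length = 0 := by rw [fr, hfl]; rfl
  refine ⟨?_, ?_, ?_⟩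
  · intro t ht
    rcases Nat.lt_or_ge H t with h | h
    · have : t = H + 1 := by omega
      subst this
      rw [Finset.sum_range_succ, hprH]
      have := i2 H le_rfl
      omega
    · exact i2 t h
  · rw [Finset.sum_range_succ, hprH]
    have := i2 H le_rfl
    omega
  · rw [Finset.sum_range_succ, Finset.sum_range_succ, hfrH]
    have hW' : (fr ch gd rootD H).length = W := by rw [i1]; simp [MM]
    rw [hW']
    unfold kk
    rw [hHd]
    have : 1 + (W * g + φ.length) * (3 * W + 6) + W ≤ 1 + H * (W + 3) := by
      rw [hH]
      nlinarith [Nat.zero_le ((W * g + φ.length) * 3)]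
    omega

end Pool.FF.FWDL
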