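import Pool.Agent.Helper86.FF.Spec

/-!
# NEG: the negative answers
-/

namespace Pool.FF.NEG

open Pool.FF Pool.Agent.NPC Pool.Agent.NPC.H633

set_option maxHeartbeats 4000000
set_option synthInstance.maxHeartbeats 400000

theorem mul_gg_le (W : ℕ) (φ : List Cl) : W * gg W φ ≤ 3 * φ.length + W := by
  unfold gg
  have := Nat.mul_div_le (3 * φ.length) W
  rw [Nat.mul_add, Nat.mul_one]
  omega

theorem HH_le (W : ℕ) (φ : List Cl) (hW : 0 < W) : HH W φ ≤ 12 * φ.length + 4 * W := by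
  unfold HH
  have := mul_gg_le W φ
  omega

theorem HH_le' (W : ℕ) (φ : List Cl) (hW : 0 < W) : HH W φ ≤ 49 * W * (φ.length + W) := by
  have := HH_le W φ hW
  have h1 : 12 * φ.length + 4 * W ≤ 49 * (φ.length + W) := by omega
  have h2 : 49 * (φ.length + W) ≤ W * (49 * (φ.length + W)) := Nat.le_mul_of_pos_left _ hW
  calc HH W φ ≤ W * (49 * (φ.length + W)) := by omega
    _ = _ := by ring

theorem kk_le (W : ℕ) (φ : List Cl) (hW : 0 < W) : kk W φ ≤ 49 * W * (φ.length + W) := by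
  unfold kk
  have h := HH_le W φ hW
  have h1 : HH W φ * (W + 3) ≤ (12 * φ.length + 4 * W) * (4 * W) :=
    Nat.mul_le_mul h (by omega)
  have h2 : 1 ≤ W * W := Nat.one_le_iff_ne_zero.2 (by positivity)
  nlinarith [h1, h2, Nat.zero_le (φ.length * W)]

theorem ncard_compl_fin {n : ℕ} (s : Set (Fin (n + 1))) : (sᶜ).ncard + s.ncard = n + 1 := by
  have := Set.ncard_add_ncard_compl s
  rw [Nat.card_eq_fintype_card, Fintype.card_fin] at this
  omega

theorem burns_iff (hHA : S_HALLA) (hHB : S_HALLB) {p : List ℕ} (hp : IsTreeCode p) (k : ℕ) :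
    BurnsAtMost (codeTree p) 0 k ↔ ∃ A, Hall p A ∧ (Brn p A).card ≤ k := by
  constructor
  · rintro ⟨l, hl, hb⟩
    obtain ⟨A, h1, _, h3⟩ := hHA p hp l hl
    exact ⟨A, h1, h3.trans hb⟩
  · rintro ⟨A, hA, hb⟩
    obtain ⟨l, h1, _, h3⟩ := hHB p hp A hA
    exact ⟨l, h1, h3.trans hb⟩

theorem negA (hETH : S_ETH) (hRC : S_RC) (hRP : S_RP) (hHA : S_HALLA) (hHB : S_HALLB) :
    S_NEGA := by
  intro h
  refine hETH (List ℕ × ℕ) _ _ _ (fun x => (redP x.1.1.length x.1.2 x.2, kk x.1.1.length x.1.2)) 49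
    (Poly.pair (Poly.fst hRP) (Poly.fst (Poly.snd hRP))) ?_ h
  intro W φ hW
  dsimp only
  rw [List.length_replicate]
  obtain ⟨r1, _, r3, r4⟩ := hRC W φ hW
  refine ⟨r1, ?_, kk_le W φ hW⟩
  rw [burns_iff hHA hHB r1]
  constructor
  · exact r4
  · intro hs
    obtain ⟨A, h1, _, h3⟩ := r3 hs
    exact ⟨A, h1, h3⟩

theorem negB (hETH : S_ETH) (hRC : S_RC) (hRP : S_RP) (hHA : S_HALLA) (hHB : S_HALLB) :
    S_NEGB := by
  intro h
  refine hETH (List ℕ × ℕ × ℕ) _ _ _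
    (fun x => (redP x.1.1.length x.1.2 x.2, HH x.1.1.length x.1.2,
      (redP x.1.1.length x.1.2 x.2).length + 1 - kk x.1.1.length x.1.2)) 49
    (Poly.pair (Poly.fst hRP) (Poly.pair (Poly.snd (Poly.snd hRP))
      (Poly.sub (Poly.add (Poly.length (Poly.fst hRP)) (Pool.Agent.NPC.Poly.const 1))
        (Poly.fst (Poly.snd hRP))))) ?_ h
  intro W φ hW
  dsimp only
  rw [List.length_replicate]
  obtain ⟨r1, r2, r3, r4⟩ := hRC W φ hW
  refine ⟨r1, ?_, HH_le' W φ hW⟩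
  constructor
  · rintro ⟨l, hl, _, hb⟩
    apply r4
    rw [← burns_iff hHA hHB r1]
    refine ⟨l, hl, ?_⟩
    have := ncard_compl_fin (burned (codeTree (redP W φ (List.replicate (2 ^ gg W φ) ()))) 0 l)
    omega
  · intro hs
    obtain ⟨A, h1, h2, h3⟩ := r3 hs
    obtain ⟨l, g1, g2, g3⟩ := hHB _ r1 A h1
    refine ⟨l, g1, g2.trans h2, ?_⟩
    have := ncard_compl_fin (burned (codeTree (redP W φ (List.replicate (2 ^ gg W φ) ()))) 0 l)
    omega

end Pool.FF.NEG
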