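import Pool.Agent.Helper86.FF.Spec

/-!
# PAD: padding with an exponential number of units
-/

namespace Pool.FF.PAD

open Pool.FF Turing Pool.Agent.NPC Pool.Agent.NPC.H633 Pool.Agent.H633R2

set_option maxHeartbeats 4000000
set_option synthInstance.maxHeartbeats 400000

/-- The doubling step. -/
def dbl {α : Type} (_ : α) (acc : List Unit) (_ : Unit) : List Unit := acc ++ acc

theorem dbl_poly {α : Type} [TEnc α] :
    Pool.Agent.NPC.Poly (Poly.foldStep (dbl : α → List Unit → Unit → List Unit)) := by
  have h1 : Pool.Agent.NPC.Poly (fun p : (α × List Unit × List Unit) × Unit × List Unit =>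
      ((p.1.1, p.2.2, dbl p.1.1 p.1.2.2 p.2.1) : α × List Unit × List Unit)) := by
    refine Poly.pair (Poly.fst (Poly.fst Poly.id)) (Poly.pair (Poly.snd (Poly.snd Poly.id)) ?_)
    exact Poly.append (Poly.snd (Poly.snd (Poly.fst Poly.id)))
      (Poly.snd (Poly.snd (Poly.fst Poly.id)))
  refine (Poly.listCases (l := fun x : α × List Unit × List Unit => x.2.1)
    (g := fun x => x) (h := fun x b t => (x.1, t, dbl x.1 x.2.2 b))
    (Poly.fst (Poly.snd Poly.id)) Poly.id h1).congr ?_
  rintro ⟨a, l, s⟩
  cases l <;> rfl

theorem dbl_iterate {α : Type} (a : α) (n k : ℕ) :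
    (Poly.foldStep dbl)^[k] (a, List.replicate n (), [()]) =
      (a, List.replicate (n - k) (), List.replicate (2 ^ min k n) ()) := by
  rw [Poly.foldStep_iterate]
  have h := fold_exp 1 ((List.replicate n ()).take k)
  rw [show List.replicate 1 () = [()] from rfl] at h
  have h2 : ((List.replicate n ()).take k).foldl (dbl a) [()] =
      List.replicate (2 ^ min k n) () := by
    have h3 := h
    rw [List.length_take, List.length_replicate, mul_one] at h3
    exact h3
  rw [h2, List.drop_replicate]

theorem main : S_PAD := by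
  intro α β _ _ e he F hF
  have hn : PC (bits : α → List Bool) T.enc (fun a => toT (List.replicate (e a) ())) := he
  have hx : PC (bits : α → List Bool) T.enc
      (fun a => toT ((a, List.replicate (e a) (), [()]) : α × List Unit × List Unit)) :=
    Poly.pair Poly.id (Poly.pair he (Pool.Agent.NPC.Poly.const [()]))
  obtain ⟨u', hu'⟩ := hn.length_le
  obtain ⟨d, r, hd⟩ := hn.node hx
  obtain ⟨c, p, hf⟩ := (dbl_poly : Pool.Agent.NPC.Poly
    (Poly.foldStep (dbl : α → List Unit → Unit → List Unit)))
  have hG : Pool.Agent.NPC.Poly (fun y : α × List Unit × List Unit => F (y.1, y.2.2)) :=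
    hF.comp (Poly.pair (Poly.fst Poly.id) (Poly.snd (Poly.snd Poly.id)))
  obtain ⟨cG, pG, hG⟩ := hG
  -- the size of the states
  let B : α → ℕ := fun a => 4 * (sz a + 2 ^ e a) + 4
  have hB : ∀ a k, ((fun b : α × List Unit × List Unit => (toT b).enc)
      ((Poly.foldStep dbl)^[k] (a, List.replicate (e a) (), [()]))).length ≤ B a := by
    intro a k
    rw [dbl_iterate]
    change sz (a, List.replicate (e a - k) (), List.replicate (2 ^ min k (e a)) ()) ≤ B a
    simp only [sz_pair, sz_replicate_unit, B]
    have h1 : 2 ^ min k (e a) ≤ 2 ^ e a := Nat.pow_le_pow_right (by norm_num) (Nat.min_le_right _ _)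
    have h2 : e a < 2 ^ e a := Nat.lt_two_pow_self
    omega
  refine ⟨Cmd.seq (Cmd.seq d (Cmd.seq split (Cmd.loop 1 (Cmd.seq (Cmd.pop 1) (ev c))))) cG,
    r + (Polynomial.C 5 * u' + Polynomial.C 3) +
      ((p.comp (Polynomial.C 4 * Polynomial.X + Polynomial.C 4) + Polynomial.C 2) * u' +
      Polynomial.C 1) + pG.comp (Polynomial.C 4 * Polynomial.X + Polynomial.C 4), fun a => ?_⟩
  have h1 := hd a
  rw [inp_eq_st, inp_eq_st] at h1
  have h2 := split_runs (toT (List.replicate (e a) ()))
    (toT ((a, List.replicate (e a) (), [()]) : α × List Unit × List Unit))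
  have h3 := loop_runs (eb := fun b : α × List Unit × List Unit => (toT b).enc) hf (B a)
    (toT (List.replicate (e a) ())).enc.reverse (a, List.replicate (e a) (), [()])
    (fun k _ => hB a k)
  have hlen : e a ≤ (toT (List.replicate (e a) ())).enc.reverse.length := by
    rw [List.length_reverse]
    have := length_lt_sz (List.replicate (e a) ())
    rw [List.length_replicate] at this
    exact this.le
  rw [dbl_iterate, Nat.min_eq_right hlen] at h3
  have h4 := hG (a, List.replicate (e a - (toT (List.replicate (e a) ())).enc.reverse.length) (),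
    List.replicate (2 ^ e a) ())
  have h5 := (h1.seq (h2.seq h3)).conv (inp_eq_st _).symm (inp_eq_st _).symm le_rfl
  refine (h5.seq h4).mono ?_
  have e1 := hu' a
  have e4 := hB a (toT (List.replicate (e a) ())).enc.reverse.length
  rw [dbl_iterate, Nat.min_eq_right hlen] at e4
  have e5 := eval_mono pG e4
  have e6 : (bits a).length = sz a := rfl
  have e7 : (bits a).length ≤ sz a + 2 ^ e a := by rw [e6]; exact Nat.le_add_right _ _
  have f1 := eval_mono r e7
  have f2 := eval_mono u' e7
  have e8 : (toT (List.replicate (e a) ())).size = (toT (List.replicate (e a) ())).enc.length := rfl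
  simp only [List.length_reverse, Polynomial.eval_add, Polynomial.eval_mul, Polynomial.eval_C,
    Polynomial.eval_comp, Polynomial.eval_X, e8] at *
  have e9 : (p.eval (4 * (sz a + 2 ^ e a) + 4) + 2) * (toT (List.replicate (e a) ())).enc.length ≤
      (p.eval (4 * (sz a + 2 ^ e a) + 4) + 2) * u'.eval (sz a + 2 ^ e a) :=
    Nat.mul_le_mul_left _ (by omega)
  have e10 : pG.eval (bits (a, List.replicate (e a - (toT (List.replicate (e a) ())).enc.length) (),
    List.replicate (2 ^ e a) ())).length ≤ pG.eval (4 * (sz a + 2 ^ e a) + 4) := e5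
  change _ + (_ + ((p.eval (4 * (sz a + 2 ^ e a) + 4) + 2) * _ + 1)) + _ ≤ _
  omega

end Pool.FF.PAD
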