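import Pool.Agent.Helper86.FF.Spec

/-!
# POS: the positive answer
-/

namespace Pool.FF.POS

open Pool.FF Turing Pool.Agent.NPC Pool.Agent.NPC.H633 Pool.Agent.H633R2

set_option maxHeartbeats 4000000
set_option synthInstance.maxHeartbeats 400000

theorem ncard_compl_fin {n : ℕ} (s : Set (Fin (n + 1))) : (sᶜ).ncard + s.ncard = n + 1 := by
  have := Set.ncard_add_ncard_compl s
  rw [Nat.card_eq_fintype_card, Fintype.card_fin] at this
  omega

theorem saves_iff (hHA : S_HALLA) (hHB : S_HALLB) {p : List ℕ} (hp : IsTreeCode p) (k : ℕ) :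
    SavesAtLeast (codeTree p) 0 k ↔ ∃ A, Hall p A ∧ (Brn p A).card + k ≤ p.length + 1 := by
  constructor
  · rintro ⟨l, hl, hb⟩
    obtain ⟨A, h1, _, h3⟩ := hHA p hp l hl
    have := ncard_compl_fin (burned (codeTree p) 0 l)
    exact ⟨A, h1, by omega⟩
  · rintro ⟨A, hA, hb⟩
    obtain ⟨l, h1, _, h3⟩ := hHB p hp A hA
    have := ncard_compl_fin (burned (codeTree p) 0 l)
    exact ⟨l, h1, by omega⟩

theorem lev_hall {p : List ℕ} (hD : S_DEP) (hp : IsTreeCode p) {ℓ : ℕ} {A : Finset ℕ}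
    (h : Lev p ℓ A) : Hall p A := by
  refine ⟨fun a ha => ⟨(h.1 a ha).1, (h.1 a ha).2.1⟩, fun t => ?_⟩
  have : (A.filter (fun a => dep p a ≤ t)).card ≤ (Finset.Icc 1 t).card := by
    refine Finset.card_le_card_of_injOn (dep p) ?_ ?_
    · intro a ha
      obtain ⟨h1, h2⟩ := Finset.mem_filter.1 (Finset.mem_coe.1 ha)
      obtain ⟨h3, h4, _⟩ := h.1 a h1
      have := ((hD p hp).2.2 a h3 h4).2
      exact Finset.mem_coe.2 (Finset.mem_Icc.2 ⟨by omega, h2⟩)
    · intro a ha b hb hab
      exact h.2.1 (Finset.mem_coe.2 (Finset.mem_filter.1 (Finset.mem_coe.1 ha)).1)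
        (Finset.mem_coe.2 (Finset.mem_filter.1 (Finset.mem_coe.1 hb)).1) hab
  simpa using this

theorem ell_cases (p : List ℕ) (k : ℕ) : 2 * k ≤ ell p k * (ell p k + 1) ∨
    p.length + 1 ≤ ell p k := by
  by_contra hcon
  push Not at hcon
  obtain ⟨h1, h2⟩ := hcon
  -- the filter contains `0, …, ell`
  have h3 : (List.range (ell p k + 1)).length ≤ ell p k := by
    conv_rhs => unfold ell
    have hsub : (List.range (ell p k + 1)) ⊆
        ((List.range (p.length + 1)).filter (fun j => decide (j * (j + 1) < 2 * k))) := by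
      intro j hj
      rw [List.mem_range] at hj
      rw [List.mem_filter, List.mem_range]
      refine ⟨by omega, ?_⟩
      rw [decide_eq_true_eq]
      have : j * (j + 1) ≤ ell p k * (ell p k + 1) := Nat.mul_le_mul (by omega) (by omega)
      omega
    exact (List.Nodup.subperm List.nodup_range hsub).length_le
  rw [List.length_range] at h3
  omega

theorem ell_le (p : List ℕ) (k : ℕ) : ell p k ≤ 2 * Nat.sqrt k + 3 := by
  unfold ell
  have hsub : ((List.range (p.length + 1)).filter (fun j => decide (j * (j + 1) < 2 * k))) ⊆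
      List.range (2 * Nat.sqrt k + 3) := by
    intro j hj
    rw [List.mem_filter, List.mem_range, decide_eq_true_eq] at hj
    rw [List.mem_range]
    by_contra hcon
    push Not at hcon
    have h1 : k < (Nat.sqrt k + 1) * (Nat.sqrt k + 1) := Nat.lt_succ_sqrt k
    have h2 : (2 * Nat.sqrt k + 3) * (2 * Nat.sqrt k + 3 + 1) ≤ j * (j + 1) :=
      Nat.mul_le_mul hcon (by omega)
    nlinarith [hj.2]
  have := (List.Nodup.subperm (List.nodup_range.filter _) hsub).length_le
  simpa using this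

theorem ell_upoly : UPoly (fun x : List ℕ × ℕ => ell x.1 x.2) := by
  have h : Pool.Agent.NPC.Poly (fun x : List ℕ × ℕ => (List.range (x.1.length + 1)).filter
      (fun j => decide (j * (j + 1) < 2 * x.2))) := by
    refine Poly.filter (p := fun (x : List ℕ × ℕ) (j : ℕ) => decide (j * (j + 1) < 2 * x.2)) ?_ ?_
    · exact UPoly.range (UPoly.add (UPoly.length (Poly.fst Poly.id)) (UPoly.const 1))
    · exact Poly.decide_lt (Poly.mul (Poly.snd Poly.id) (Poly.succ (Poly.snd Poly.id)))
        (Poly.mul (Pool.Agent.NPC.Poly.const 2) (Poly.snd (Poly.fst Poly.id)))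
  exact UPoly.length h

theorem main (hD : S_DEP) (hHA : S_HALLA) (hHB : S_HALLB) (hPUSH : S_PUSH) (hEXCH : S_EXCH)
    (hDPC : S_DPC) (hDPP : S_DPP) (hPAD : S_PAD) : S_POS := by
  obtain ⟨c, q, hc⟩ := hPAD (List ℕ × ℕ) Bool (fun x => ell x.1 x.2) ell_upoly
    (fun x => dpAns (ell x.1.1 x.1.2) x.2 x.1.1 x.1.2) hDPP
  obtain ⟨M, hM⟩ := toTm (ea := fun x : List ℕ × ℕ => bits x) (eb := fun b : Bool => bits b)
    (f := fun x : List ℕ × ℕ => dpAns (ell x.1 x.2) (List.replicate (2 ^ ell x.1 x.2) ()) x.1 x.2)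
    c (fun a => q.eval (sz a + 2 ^ ell a.1 a.2)) (fun a => hc a)
  -- the running time
  refine ⟨3 * (q.natDegree + 1), (q + 1).comp (Polynomial.X + 1), M, ?_⟩
  rintro ⟨p, k⟩ hp
  refine ⟨dpAns (ell p k) (List.replicate (2 ^ ell p k) ()) p k, ?_, ?_⟩
  rotate_left
  · obtain ⟨h⟩ := hM (p, k)
    refine ⟨Pool.Agent.NPC.outputs_conv rfl rfl ?_ h⟩
    simp only [Polynomial.eval_comp, Polynomial.eval_add, Polynomial.eval_X, Polynomial.eval_one]
    rw [bits_length]
    generalize sz (p, k) = x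
    have h1 : x + 2 ^ ell p k ≤ 2 ^ ell p k * (x + 1) := by
      have : 1 ≤ 2 ^ ell p k := Nat.one_le_two_pow
      nlinarith
    have h2 : q.eval (x + 2 ^ ell p k) ≤ (2 ^ ell p k) ^ q.natDegree * q.eval (x + 1) :=
      (eval_mono q h1).trans (eval_mul_le q Nat.one_le_two_pow)
    have h3 : (2 ^ ell p k) ^ q.natDegree ≤ 2 ^ (3 * (q.natDegree + 1) * (Nat.sqrt k + 1)) := by
      rw [← pow_mul]
      refine Nat.pow_le_pow_right (by norm_num) ?_
      calc ell p k * q.natDegree ≤ (3 * (Nat.sqrt k + 1)) * (q.natDegree + 1) :=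
            Nat.mul_le_mul ((ell_le p k).trans (by omega)) (by omega)
        _ = _ := by ring
    have h4 : 1 ≤ 2 ^ (3 * (q.natDegree + 1) * (Nat.sqrt k + 1)) := Nat.one_le_two_pow
    generalize 2 ^ (3 * (q.natDegree + 1) * (Nat.sqrt k + 1)) = E at *
    calc q.eval (x + 2 ^ ell p k) + 1 ≤ (2 ^ ell p k) ^ q.natDegree * q.eval (x + 1) + 1 := by
          omega
      _ ≤ E * q.eval (x + 1) + E * 1 := by
          have := Nat.mul_le_mul_right (q.eval (x + 1)) h3
          omega
      _ = E * (q.eval (x + 1) + 1) := by ring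
  · -- correctness
    simp only
    rw [saves_iff hHA hHB hp, hDPC p hp]
    constructor
    · rintro ⟨A, hA, hb⟩
      exact ⟨A, lev_hall hD hp hA, hb⟩
    · rintro ⟨A, hA, hb⟩
      have hb' : (Brn p A).card + k ≤ p.length + 1 := hb
      rcases ell_cases p k with h | h
      · obtain ⟨A1, h1, h2, h3⟩ := hEXCH p hp k (ell p k) h ⟨A, hA, hb⟩
        obtain ⟨A2, h4, h5⟩ := hPUSH p hp A1 (ell p k) h1 h2
        exact ⟨A2, h4, by omega⟩
      · have hcard : A.card ≤ ell p k := by
          have : A ⊆ Finset.Icc 1 p.length := fun a ha => Finset.mem_Icc.2 (hA.1 a ha)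
          have := Finset.card_le_card this
          simp at this
          omega
        obtain ⟨A2, h4, h5⟩ := hPUSH p hp A (ell p k) hA hcard
        exact ⟨A2, h4, by omega⟩

end Pool.FF.POS
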