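import Pool.Agent.Helper86.FF.Spec

/-!
# PRE: the renaming of the variables
-/

namespace Pool.FF.PRE

open Pool.FF

set_option maxHeartbeats 4000000
set_option synthInstance.maxHeartbeats 400000

theorem occ_length (φ : List Cl) : (occ φ).length = 3 * φ.length := by
  unfold occ
  induction φ with
  | nil => rfl
  | cons c φ ih => rw [List.flatMap_cons, List.length_append, ih]; simp; omega

theorem ix_spec (φ : List Cl) (x : ℕ) (hx : x ∈ occ φ) :
    ix φ x < 3 * φ.length ∧ (occ φ).getD (ix φ x) 0 = x := by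
  rw [← occ_length]
  unfold ix
  obtain ⟨i, hi, rfl⟩ := List.mem_iff_getElem.1 hx
  have hmem : ((occ φ)[i], i) ∈ (occ φ).zipIdx.filter (fun q => decide (q.1 = (occ φ)[i])) := by
    rw [List.mem_filter]
    refine ⟨?_, by simp⟩
    rw [List.mem_zipIdx_iff_getElem?]
    simp [hi]
  cases hl : (occ φ).zipIdx.filter (fun q => decide (q.1 = (occ φ)[i])) with
  | nil => rw [hl] at hmem; simp at hmem
  | cons a l =>
    have ha : a ∈ (occ φ).zipIdx.filter (fun q => decide (q.1 = (occ φ)[i])) := by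
      rw [hl]; exact List.mem_cons_self
    rw [List.mem_filter, List.mem_zipIdx_iff_getElem?, decide_eq_true_eq] at ha
    obtain ⟨h1, h2⟩ := ha
    simp only [List.map_cons, List.getD_cons_zero]
    have h3 : a.2 < (occ φ).length := by
      by_contra hcon
      rw [List.getElem?_eq_none (by omega)] at h1
      simp at h1
    refine ⟨h3, ?_⟩
    rw [List.getD_eq_getElem?_getD, h1]
    exact h2

theorem main : S_PRE := by
  intro φ
  refine ⟨by simp [prep], ix_spec φ, ?_, ?_⟩
  · intro c hc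
    unfold prep at hc
    obtain ⟨c', hc', rfl⟩ := List.mem_map.1 hc
    have h1 : c'.1.1 ∈ occ φ := List.mem_flatMap.2 ⟨c', hc', by simp⟩
    have h2 : c'.2.1.1 ∈ occ φ := List.mem_flatMap.2 ⟨c', hc', by simp⟩
    have h3 : c'.2.2.1 ∈ occ φ := List.mem_flatMap.2 ⟨c', hc', by simp⟩
    exact ⟨(ix_spec φ _ h1).1, (ix_spec φ _ h2).1, (ix_spec φ _ h3).1⟩
  · intro β hβ
    refine ⟨fun x => β (ix φ x), fun c hc => ?_⟩
    have := hβ ((ix φ c.1.1, c.1.2), (ix φ c.2.1.1, c.2.1.2), (ix φ c.2.2.1, c.2.2.2)) (by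
      unfold prep
      exact List.mem_map.2 ⟨c, hc, rfl⟩)
    exact this

end Pool.FF.PRE
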