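import Pool.Agent.Helper86.FF.Spec

/-!
# SIZE: the levels are small
-/

namespace Pool.FF.SIZE

open Pool.FF

set_option maxHeartbeats 4000000
set_option synthInstance.maxHeartbeats 400000

/-- The number of future splits of the track `j`. -/
def spl (W g j t : ℕ) : ℕ :=
  ((Finset.range (W * g)).filter (fun b => b / g = j ∧ t ≤ 1 + 3 * b)).card

theorem spl_mono (W g j t : ℕ) : spl W g j (t + 1) ≤ spl W g j t := by
  refine Finset.card_le_card ?_
  intro b hb
  simp only [Finset.mem_filter, Finset.mem_range] at hb ⊢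
  exact ⟨hb.1, hb.2.1, by omega⟩

theorem spl_lt (W g j b : ℕ) (hb : b < W * g) (hj : j = b / g) :
    spl W g j (1 + 3 * b + 1) + 1 ≤ spl W g j (1 + 3 * b) := by
  refine Finset.card_lt_card ?_
  rw [Finset.ssubset_iff_of_subset]
  · refine ⟨b, ?_, ?_⟩
    · simp only [Finset.mem_filter, Finset.mem_range]
      exact ⟨hb, hj.symm, le_rfl⟩
    · simp
  · intro b hb
    simp only [Finset.mem_filter, Finset.mem_range] at hb ⊢
    exact ⟨hb.1, hb.2.1, by omega⟩

theorem spl_le (W g j t : ℕ) (hg : 0 < g) : spl W g j t ≤ g := by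
  have : (Finset.range (W * g)).filter (fun b => b / g = j ∧ t ≤ 1 + 3 * b) ⊆
      Finset.Ico (j * g) (j * g + g) := by
    intro b hb
    simp only [Finset.mem_filter, Finset.mem_range] at hb
    obtain ⟨_, h2, _⟩ := hb
    rw [Finset.mem_Ico]
    subst h2
    have h3 := Nat.div_add_mod b g
    have h4 := Nat.mod_lt b hg
    rw [mul_comm] at h3
    omega
  have := Finset.card_le_card this
  rw [Nat.card_Ico] at this
  unfold spl
  omega

/-- The weight of a vertex. -/
def wt (W g K H t : ℕ) (x : Dt) : ℕ :=
  if x.1 = true then 2 ^ spl W g x.2.1 t * (1 + 3 * (K + 1) * (H + 1 - t))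
  else if x.2.1 = 0 then 1 else K + 1

theorem one_le_wt (W g K H t : ℕ) (x : Dt) : 1 ≤ wt W g K H t x := by
  unfold wt
  split_ifs
  · exact Nat.mul_pos (by positivity) (by omega)
  · exact le_rfl
  · omega

theorem main_le (W g K H j d : ℕ) (hd : d < H) :
    2 ^ spl W g j (d + 1) * (1 + 3 * (K + 1) * (H + 1 - (d + 1))) + 3 * (K + 1) ≤
      2 ^ spl W g j d * (1 + 3 * (K + 1) * (H + 1 - d)) := by
  have h1 : 2 ^ spl W g j (d + 1) ≤ 2 ^ spl W g j d :=
    Nat.pow_le_pow_right (by norm_num) (spl_mono W g j d)
  have h2 : 1 ≤ 2 ^ spl W g j d := Nat.one_le_two_pow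
  obtain ⟨X, hX⟩ : ∃ X, H + 1 - (d + 1) = X := ⟨_, rfl⟩
  have hX' : H + 1 - d = X + 1 := by omega
  rw [hX, hX']
  generalize 2 ^ spl W g j (d + 1) = P at *
  generalize 2 ^ spl W g j d = P' at *
  have h3 : P * (1 + 3 * (K + 1) * X) ≤ P' * (1 + 3 * (K + 1) * X) := Nat.mul_le_mul_right _ h1
  have h4 : 1 * (3 * (K + 1)) ≤ P' * (3 * (K + 1)) := Nat.mul_le_mul_right _ h2
  calc _ ≤ P' * (1 + 3 * (K + 1) * X) + P' * (3 * (K + 1)) := by omega
    _ = _ := by ring

theorem litSide_le (W g K H t j : ℕ) (a : List Bool) (l : Lit) (g' : ℕ) :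
    ((litSide g' j a l).map (wt W g K H t)).sum ≤ K + 1 := by
  unfold litSide
  split_ifs <;> simp [wt]

theorem step_le (W g K H : ℕ) (cs : List Cl) (d : ℕ) (hd1 : 1 ≤ d) (hdH : d ≤ H) (x : Dt) :
    ((chF W g cs K H d x).map (wt W g K H (d + 1))).sum ≤ wt W g K H d x := by
  obtain ⟨b, j, a⟩ := x
  unfold chF
  rw [if_neg (by omega)]
  cases b with
  | false =>
    rw [if_pos rfl]
    simp only
    by_cases h0 : j = 0
    · rw [if_pos h0]; simp
    · rw [if_neg h0]
      by_cases h1 : j = 1
      · rw [if_pos h1]
        simp [wt, h1]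
      · rw [if_neg h1]
        have h2 : j - 1 ≠ 0 := by omega
        simp [wt, h2, h0]
  | true =>
    rw [if_neg (by simp)]
    simp only
    by_cases hH : H ≤ d
    · rw [if_pos hH]; simp
    · rw [if_neg hH]
      have hmain := main_le W g K H j d (by omega)
      by_cases hb : (d - 1) / 3 < W * g
      · rw [if_pos hb]
        by_cases hj : j = (d - 1) / 3 / g
        · rw [if_pos hj]
          by_cases hp0 : (d - 1) % 3 = 0
          · rw [if_pos hp0]
            have hd : d = 1 + 3 * ((d - 1) / 3) := by omega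
            have h5 := spl_lt W g j ((d - 1) / 3) hb hj
            rw [← hd] at h5
            have h6 : 2 * 2 ^ spl W g j (d + 1) ≤ 2 ^ spl W g j d := by
              rw [← pow_succ']
              exact Nat.pow_le_pow_right (by norm_num) h5
            simp only [List.map_cons, List.map_nil, List.sum_cons, List.sum_nil, wt, if_true]
            have h7 : 1 + 3 * (K + 1) * (H + 1 - (d + 1)) ≤ 1 + 3 * (K + 1) * (H + 1 - d) :=
              Nat.add_le_add_left (Nat.mul_le_mul_left _ (by omega)) _
            have h8 := Nat.mul_le_mul h6 h7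
            calc _ = 2 * 2 ^ spl W g j (d + 1) * (1 + 3 * (K + 1) * (H + 1 - (d + 1))) := by ring
              _ ≤ _ := h8
          · rw [if_neg hp0]
            by_cases hp1 : (d - 1) % 3 = 1
            · rw [if_pos hp1]
              simp only [List.map_cons, List.map_nil, List.sum_cons, List.sum_nil, wt, if_true]
              rw [Nat.add_sub_add_right] at hmain
              simp
              omega
            · rw [if_neg hp1]
              simp only [List.map_cons, List.map_nil, List.sum_cons, List.sum_nil, wt, if_true]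
              omega
        · rw [if_neg hj]
          simp only [List.map_cons, List.map_nil, List.sum_cons, List.sum_nil, wt, if_true]
          omega
      · rw [if_neg hb]
        by_cases hp0 : (d - 1) % 3 = 0
        · rw [if_pos hp0]
          simp only [List.map_append, List.sum_append]
          have e1 := litSide_le W g K H (d + 1) j a (cs.getD ((d - 1) / 3 - W * g) default).1 g
          have e2 := litSide_le W g K H (d + 1) j a (cs.getD ((d - 1) / 3 - W * g) default).2.1 g
          have e3 := litSide_le W g K H (d + 1) j a (cs.getD ((d - 1) / 3 - W * g) default).2.2 g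
          simp only [List.map_cons, List.map_nil, List.sum_cons, List.sum_nil]
          have e4 : wt W g K H (d + 1) (true, j, a) =
            2 ^ spl W g j (d + 1) * (1 + 3 * (K + 1) * (H + 1 - (d + 1))) := by simp [wt]
          have e5 : wt W g K H d (true, j, a) =
            2 ^ spl W g j d * (1 + 3 * (K + 1) * (H + 1 - d)) := by simp [wt]
          rw [e4, e5]
          omega
        · rw [if_neg hp0]
          simp only [List.map_cons, List.map_nil, List.sum_cons, List.sum_nil, wt, if_true]
          omega

theorem sum_flatMap_le {D : Type} (f : D → List D) (w w' : D → ℕ) (l : List D)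
    (h : ∀ x, ((f x).map w').sum ≤ w x) : ((l.flatMap f).map w').sum ≤ (l.map w).sum := by
  induction l with
  | nil => simp
  | cons x l ih =>
    simp only [List.flatMap_cons, List.map_append, List.sum_append, List.map_cons, List.sum_cons]
    exact Nat.add_le_add (h x) ih

theorem length_le_sum {D : Type} (w : D → ℕ) (l : List D) (h : ∀ x, 1 ≤ w x) :
    l.length ≤ (l.map w).sum := by
  induction l with
  | nil => simp
  | cons x l ih =>
    simp only [List.length_cons, List.map_cons, List.sum_cons]
    have := h x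
    omega

theorem main : S_SIZE := by
  intro W φ hW t ht
  have hg : 0 < gg W φ := Nat.succ_pos _
  have h2g : 1 ≤ 2 ^ gg W φ := Nat.one_le_two_pow
  set g := gg W φ with hgdef
  set K := KK W φ with hK
  set H := HH W φ with hH
  -- level 1
  have h1 : ((unf (chR W φ) rootD 1).1.map (wt W g K H 1)).sum ≤
      W * 2 ^ g * (3 * (K + 1) * (H + 1) + 1) := by
    have e : (unf (chR W φ) rootD 1).1 =
        (false, 1, []) :: (List.range W).map (fun j => ((true, j, []) : Dt)) := by
      simp [unf, unfStep, chR, chF]
    rw [e, List.map_cons, List.sum_cons, List.map_map]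
    have e1 : wt W g K H 1 (false, 1, []) = K + 1 := by simp [wt]
    rw [e1]
    have e2 : ((List.range W).map (wt W g K H 1 ∘ fun j => ((true, j, []) : Dt))).sum ≤
        ((List.range W).map (fun _ => 2 ^ g * (1 + 3 * (K + 1) * H))).sum := by
      apply List.sum_le_sum
      intro j _
      simp only [Function.comp, wt, if_true]
      refine Nat.mul_le_mul (Nat.pow_le_pow_right (by norm_num) (spl_le W g j 1 hg)) ?_
      simp
    have e3 : ((List.range W).map (fun _ => 2 ^ g * (1 + 3 * (K + 1) * H))).sum =
        W * (2 ^ g * (1 + 3 * (K + 1) * H)) := by simp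
    rw [e3] at e2
    have e4 : K + 1 ≤ W * 2 ^ g * (3 * (K + 1)) := by
      have : 1 ≤ W * 2 ^ g := Nat.mul_pos hW h2g
      calc K + 1 ≤ 1 * (3 * (K + 1)) := by omega
        _ ≤ _ := Nat.mul_le_mul_right _ this
    calc _ ≤ W * 2 ^ g * (3 * (K + 1)) + W * (2 ^ g * (1 + 3 * (K + 1) * H)) := by omega
      _ = _ := by ring
  have h2 : ∀ t, t ≤ H → ((unf (chR W φ) rootD (t + 1)).1.map (wt W g K H (t + 1))).sum ≤
      W * 2 ^ g * (3 * (K + 1) * (H + 1) + 1) := by
    intro t
    induction t with
    | zero => intro _; exact h1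
    | succ t ih =>
      intro ht
      refine le_trans ?_ (ih (by omega))
      change (((unf (chR W φ) rootD (t + 1)).1.flatMap (chR W φ (t + 1))).map _).sum ≤ _
      exact sum_flatMap_le _ _ _ _ (fun x => step_le W g K H (prep φ) (t + 1) (by omega) ht x)
  rcases Nat.eq_zero_or_pos t with h0 | h0
  · subst h0
    have : 1 ≤ W * 2 ^ g := Nat.mul_pos hW h2g
    exact Nat.mul_pos this (by omega)
  · obtain ⟨t', rfl⟩ : ∃ t', t = t' + 1 := ⟨t - 1, by omega⟩
    exact (length_le_sum _ _ (one_le_wt W g K H (t' + 1))).trans (h2 t' (by omega))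

end Pool.FF.SIZE
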