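import Pool.Agent.Helper86.FF.RC
import Pool.Agent.Helper86.FF.NEG
import Pool.Agent.Helper86.FF.POS
import Pool.Agent.Helper86.FF.DEP
import Pool.Agent.Helper86.FF.BH
import Pool.Agent.Helper86.FF.PAD
import Pool.Agent.Helper86.FF.ETH
import Pool.Agent.Helper86.FF.PRE
import Pool.Agent.Helper86.FF.SIZE
import Pool.Agent.Helper86.FF.FWDL
import Pool.Agent.Helper91.FF.HALL
import Pool.Agent.Helper91.FF.PUSH
import Pool.Agent.Helper91.FF.FWDV
import Pool.Agent.Helper91.FF.UNF
import Pool.Agent.Helper91.FF.DPP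
import Pool.Agent.Helper85.FF.BC
import Pool.Agent.Helper85.FF.BL
import Pool.Agent.Helper85.FF.DPC
import Pool.Agent.Helper85.FF.RP

/-!
# Firefighter on trees: assembly
-/

namespace Pool.FF.Main

open Pool.FF

theorem dep : S_DEP := Pool.FF.DEP.main

theorem hallA : S_HALLA := Pool.FF.Helper91.hallA dep

theorem hallB : S_HALLB := Pool.FF.Helper91.hallB dep

theorem rc : S_RC :=
  Pool.FF.RC.main dep (Pool.FF.Helper91.unf_thm dep) Pool.FF.SIZE.main
    (Pool.FF.Helper91.fwdv dep) Pool.FF.FWDL.main Pool.FF.PRE.main (Pool.FF.BH.main dep)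
    (Pool.FF.BH.main0 dep) (Helper85.FF.BC.mainBC dep) (Helper85.FF.BL.mainBL dep)

theorem eth : S_ETH := Pool.FF.ETH.main Pool.FF.PAD.main

theorem pos : S_POS :=
  Pool.FF.POS.main dep hallA hallB (Pool.FF.Helper91.push dep) (Pool.FF.Helper91.exch dep)
    (Helper85.FF.DPC.main dep) Pool.FF.Helper91.dpp Pool.FF.PAD.main

theorem negA : S_NEGA := Pool.FF.NEG.negA eth rc Pool.Agent.NPC.H85RP.main hallA hallB

theorem negB : S_NEGB := Pool.FF.NEG.negB eth rc Pool.Agent.NPC.H85RP.main hallA hallB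

end Pool.FF.Main
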