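import Pool.Agent.Helper86.FF.Spec

/-!
# RC: correctness of the reduction
-/

namespace Pool.FF.RC

open Pool.FF

set_option maxHeartbeats 4000000
set_option synthInstance.maxHeartbeats 400000

theorem trunc_eq {α : Type} {u : List Unit} {l : List α} (h : l.length ≤ u.length) :
    trunc u l = l := List.map_fst_zip h

theorem redP_eq (hS : S_SIZE) (W : ℕ) (φ : List Cl) (hW : 0 < W) :
    redP W φ (List.replicate (2 ^ gg W φ) ()) = (unf (chR W φ) rootD (HH W φ + 1)).2.2 := by
  have key : ∀ t ≤ HH W φ + 1, (List.range t).foldl (fun st t =>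
      unfStepT (List.replicate (W * (List.replicate (2 ^ gg W φ) ()).length *
        (3 * (KK W φ + 1) * (HH W φ + 1) + 1)) ())
      (chR W φ t) st) ([rootD], 0, []) = unf (chR W φ) rootD t := by
    intro t
    induction t with
    | zero => intro _; rfl
    | succ t ih =>
      intro ht
      rw [List.range_succ, List.foldl_append, ih (by omega)]
      simp only [List.foldl_cons, List.foldl_nil]
      have h1 := hS W φ hW (t + 1) ht
      change unfStepT _ _ _ = unfStep _ _
      unfold unfStepT unfStep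
      rw [trunc_eq]
      have h2 : (unf (chR W φ) rootD (t + 1)).1 =
          (unf (chR W φ) rootD t).1.flatMap (chR W φ t) := rfl
      rw [h2] at h1
      simpa using h1
  unfold redP
  rw [key _ le_rfl]

theorem root_kids {W : ℕ} {φ : List Cl} {p : List ℕ} {data : ℕ → Dt} (hD : S_DEP)
    (h : IsUnf p (chR W φ) rootD (HH W φ + 1) data) : KK W φ ≤ p.length := by
  obtain ⟨hp, h0, hv⟩ := h
  obtain ⟨hl, hd0, hd⟩ := hD p hp
  obtain ⟨_, h2⟩ := hv 0 (Nat.zero_le _)
  obtain ⟨ks, hnd, hmem, hmap⟩ := h2 (by rw [hd0]; omega)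
  rw [hd0, h0] at hmap
  have e : chR W φ 0 rootD = (false, 1, []) :: (List.range W).map (fun j => (true, j, [])) := by
    simp [chR, chF]
  rw [e] at hmap
  obtain ⟨a, l, rfl, ha, hl'⟩ := List.map_eq_cons_iff.1 hmap
  have ha1 : a ∈ a :: l := List.mem_cons_self
  obtain ⟨a1, a2, a3⟩ := (hmem a).1 ha1
  obtain ⟨a4, a5⟩ := hd a a1 a2
  rw [a3, hd0] at a5
  obtain ⟨_, h3⟩ := hv a a2
  have hH : 1 ≤ HH W φ := by unfold HH; omega
  obtain ⟨ks', hnd', hmem', hmap'⟩ := h3 (by rw [a5]; omega)
  rw [a5, ha] at hmap'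
  have e' : chR W φ (0 + 1) (false, 1, []) = List.replicate (KK W φ) (false, 0, []) := by
    simp [chR, chF]
  rw [e'] at hmap'
  have hlen : ks'.length = KK W φ := by
    have := congrArg List.length hmap'
    simpa using this
  rw [← hlen, ← List.toFinset_card_of_nodup hnd']
  have : ks'.toFinset ⊆ Finset.Icc 1 p.length := by
    intro u hu
    rw [List.mem_toFinset] at hu
    obtain ⟨u1, u2, _⟩ := (hmem' u).1 hu
    exact Finset.mem_Icc.2 ⟨u1, u2⟩
  calc ks'.toFinset.card ≤ (Finset.Icc 1 p.length).card := Finset.card_le_card this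
    _ = p.length := by simp

theorem gg_pos (W : ℕ) (φ : List Cl) : 0 < gg W φ := Nat.succ_pos _

theorem lt_mul_gg (W : ℕ) (φ : List Cl) (hW : 0 < W) : 3 * φ.length < W * gg W φ := by
  unfold gg
  have := Nat.lt_div_mul_add (a := 3 * φ.length) hW
  have h2 := Nat.div_add_mod (3 * φ.length) W
  have h3 := Nat.mod_lt (3 * φ.length) hW
  have h4 : W * (3 * φ.length / W + 1) = W * (3 * φ.length / W) + W := by ring
  omega

theorem main (hDEP : S_DEP) (hUNF : S_UNF) (hSIZE : S_SIZE) (hFWDV : S_FWDV) (hFWDL : S_FWDL)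
    (hPRE : S_PRE) (hBH : S_BH) (hB0 : S_B0) (hBC : S_BC) (hBL : S_BL) : S_RC := by
  intro W φ hW
  rw [redP_eq hSIZE W φ hW]
  obtain ⟨data, hun⟩ := hUNF Dt (chR W φ) rootD (HH W φ + 1)
  generalize (unf (chR W φ) rootD (HH W φ + 1)).2.2 = p at hun
  have hkp : KK W φ ≤ p.length := root_kids hDEP hun
  refine ⟨hun.1, ?_, ?_, ?_⟩
  · refine le_trans ?_ hkp
    unfold KK; omega
  · intro hs
    obtain ⟨good, g1, g2, g3⟩ := hFWDL W φ hW hs
    obtain ⟨A, hA, hA1, hA2⟩ := hFWDV Dt (chR W φ) rootD (HH W φ + 1) p data good hun g1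
    exact ⟨A, hA, hA1.trans g2, hA2.trans g3⟩
  · rintro ⟨A, hA, hB⟩
    obtain ⟨q1, q2, q3, q4⟩ := hPRE φ
    have hH : HH W φ = 1 + 3 * (W * gg W φ + (prep φ).length) := by rw [q1]; rfl
    have hun' : IsUnf p (chF W (gg W φ) (prep φ) (kk W φ + HH W φ + 2) (HH W φ)) rootD
        (HH W φ + 1) data := hun
    have hNH : NoHeavy p data A (HH W φ) :=
      hBH W (gg W φ) (kk W φ) (HH W φ) (prep φ) p data A hun' hA hB
    have h0 := hB0 W (gg W φ) _ (HH W φ) (prep φ) p data A (by unfold HH; omega) hun' hA hNH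
    -- the variable blocks
    have h1 : ∀ b ≤ W * gg W φ, ∃ lab, St p data A W lab b := by
      intro b
      induction b with
      | zero => intro _; exact ⟨_, h0⟩
      | succ b ih =>
        intro hb
        obtain ⟨lab, hlab⟩ := ih (by omega)
        obtain ⟨β, hβ⟩ := hBC W (gg W φ) _ (HH W φ) (prep φ) p data A (gg_pos W φ) hH hun' hA hNH
          lab b (by omega) hlab
        exact ⟨_, hβ⟩
    obtain ⟨lab, hlab⟩ := h1 _ le_rfl
    have hrange : ∀ c ∈ prep φ, c.1.1 < W * gg W φ ∧ c.2.1.1 < W * gg W φ ∧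
        c.2.2.1 < W * gg W φ := by
      intro c hc
      have := lt_mul_gg W φ hW
      obtain ⟨r1, r2, r3⟩ := q3 c hc
      omega
    have h2 : ∀ i ≤ (prep φ).length, St p data A W lab (W * gg W φ + i) := by
      intro i
      induction i with
      | zero => intro _; exact hlab
      | succ i ih =>
        intro hi
        exact (hBL W (gg W φ) _ (HH W φ) (prep φ) p data A (gg_pos W φ) hH hrange hun' hA hNH
          lab i (by omega) (ih (by omega))).2
    refine q4 (fun i => (lab (i / gg W φ)).getD (i % gg W φ) false) ?_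
    intro c hc
    obtain ⟨i, hi, rfl⟩ := List.mem_iff_getElem.1 hc
    exact (hBL W (gg W φ) _ (HH W φ) (prep φ) p data A (gg_pos W φ) hH hrange hun' hA hNH
      lab i hi (h2 i (by omega))).1

end Pool.FF.RC
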