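import Pool.Agent.Helper86.FF.Defs
import Pool.Graph.R_seed8.H633R2.FptPad

/-!
# Firefighter on trees: the statements of the parts
-/

namespace Pool.FF

open Turing Pool.Agent.NPC Pool.Agent.H633R2 Pool.Agent.NPC.H633

set_option linter.unusedVariables false

/-! ### Parents, depths, protected sets -/

/-- The parent of the vertex `v` (the root is its own parent). -/
def par (p : List ℕ) (v : ℕ) : ℕ := if v = 0 then 0 else p.getD (v - 1) 0

/-- The list of the depths of the vertices. -/
def deps (p : List ℕ) : List ℕ := p.foldl (fun ds q => ds ++ [ds.getD q 0 + 1]) [0]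

/-- The depth of a vertex. -/
def dep (p : List ℕ) (v : ℕ) : ℕ := (deps p).getD v 0

/-- The vertices which burn when the set `A` is protected (in the end): those without an ancestor
in `A` (a vertex is its own ancestor). -/
noncomputable def Brn (p : List ℕ) (A : Finset ℕ) : Finset ℕ :=
  haveI := Classical.decPred (fun v => ∀ j, (par p)^[j] v ∉ A)
  (Finset.range (p.length + 1)).filter (fun v => ∀ j, (par p)^[j] v ∉ A)

/-- The sets which can be protected in time. -/
def Hall (p : List ℕ) (A : Finset ℕ) : Prop :=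
  (∀ a ∈ A, 1 ≤ a ∧ a ≤ p.length) ∧ ∀ t, (A.filter (fun a => dep p a ≤ t)).card ≤ t

/-- Antichains with at most one vertex in each depth, and only in the depths `1, …, ℓ`. -/
def Lev (p : List ℕ) (ℓ : ℕ) (A : Finset ℕ) : Prop :=
  (∀ a ∈ A, 1 ≤ a ∧ a ≤ p.length ∧ dep p a ≤ ℓ) ∧ Set.InjOn (dep p) (A : Set ℕ) ∧
    ∀ a ∈ A, ∀ j, 0 < j → (par p)^[j] a ∉ A

/-- DEP. -/
def S_DEP : Prop := ∀ p, IsTreeCode p → (deps p).length = p.length + 1 ∧ dep p 0 = 0 ∧
  ∀ v, 1 ≤ v → v ≤ p.length → par p v < v ∧ dep p v = dep p (par p v) + 1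

/-- HALLA: from strategies to sets. -/
def S_HALLA : Prop := ∀ p, IsTreeCode p → ∀ l, IsStrategy (codeTree p) 0 l →
  ∃ A, Hall p A ∧ A.card ≤ l.length ∧ (Brn p A).card ≤ (burned (codeTree p) 0 l).ncard

/-- HALLB: from sets to strategies. -/
def S_HALLB : Prop := ∀ p, IsTreeCode p → ∀ A, Hall p A →
  ∃ l, IsStrategy (codeTree p) 0 l ∧ l.length ≤ A.card ∧
    (burned (codeTree p) 0 l).ncard ≤ (Brn p A).card

/-! ### The algorithm for Saving `k` vertices -/

/-- PUSH: a small protected set can be moved up to one vertex per level. -/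
def S_PUSH : Prop := ∀ p, IsTreeCode p → ∀ A ℓ, Hall p A → A.card ≤ ℓ →
  ∃ A', Lev p ℓ A' ∧ (Brn p A').card ≤ (Brn p A).card

/-- EXCH: the exchange argument. -/
def S_EXCH : Prop := ∀ p, IsTreeCode p → ∀ k ℓ, 2 * k ≤ ℓ * (ℓ + 1) →
  (∃ A, Hall p A ∧ (Brn p A).card + k ≤ p.length + 1) →
  ∃ A, Hall p A ∧ A.card ≤ ℓ ∧ (Brn p A).card + k ≤ p.length + 1

/-- Truncation of a list to the length of `u`. -/
def trunc {α : Type} (u : List Unit) (l : List α) : List α := (l.zip u).map Prod.fst

/-- Tables: lists of pairs (set of levels used, number of saved vertices). -/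
abbrev Tab : Type := List (List Bool × ℕ)

/-- The lists of `ℓ` booleans (if `pad` has length at least `2 ^ ℓ`). -/
def masks (ℓ : ℕ) (pad : List Unit) : List (List Bool) :=
  (List.range ℓ).foldl (fun acc _ => trunc pad (acc.flatMap (fun m => [false :: m, true :: m]))) [[]]

/-- All the pairs which may occur. -/
def cand (p : List ℕ) (ms : List (List Bool)) : Tab :=
  ms.flatMap (fun m => (List.range (p.length + 1)).map (fun x => (m, x)))

def disj (a b : List Bool) : Bool := (a.zip b).all (fun q => !(q.1 && q.2))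

def orM (a b : List Bool) : List Bool := (a.zip b).map (fun q => q.1 || q.2)

/-- The levels in `1, …, ℓ` equal to `d`. -/
def unitM (ℓ d : ℕ) : List Bool := (List.range ℓ).map (fun j => decide (j + 1 = d))

/-- Combination of two tables. -/
def mergeT (C R R' : Tab) : Tab :=
  C.filter (fun c => R.any (fun r => R'.any (fun r' =>
    disj r.1 r'.1 && decide (c = (orM r.1 r'.1, r.2 + r'.2)))))

/-- Entries of the dynamic program: vertex, depth, weight, table (for the case that the vertex
burns). -/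
abbrev Ent : Type := ℕ × ℕ × ℕ × Tab

/-- The table for the branch at a vertex: the vertex is protected, or it burns. -/
def optT (ℓ : ℕ) (e : Ent) : Tab :=
  if e.2.1 ≤ ℓ then (unitM ℓ e.2.1, e.2.2.1) :: e.2.2.2 else e.2.2.2

/-- One step: the last vertex (the head of the list) is merged into its parent `q`. -/
def dpStep (ℓ : ℕ) (C : Tab) (st : List Ent) (q : ℕ) : List Ent :=
  match st with
  | [] => []
  | e :: st' => st'.map (fun f =>
      if f.1 = q then (f.1, f.2.1, f.2.2.1 + e.2.2.1, mergeT C f.2.2.2 (optT ℓ e)) else f)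

def dpInit (ℓ : ℕ) (p : List ℕ) : List Ent :=
  ((deps p).zipIdx.map (fun x => ((x.2, x.1, 1, [(unitM ℓ 0, 0)]) : Ent))).reverse

def dpRun (ℓ : ℕ) (pad : List Unit) (p : List ℕ) : List Ent :=
  p.reverse.foldl (dpStep ℓ (cand p (masks ℓ pad))) (dpInit ℓ p)

def dpAns (ℓ : ℕ) (pad : List Unit) (p : List ℕ) (k : ℕ) : Bool :=
  (dpRun ℓ pad p).any (fun e => e.2.2.2.any (fun r => decide (k ≤ r.2)))

/-- The number of levels which have to be considered. -/
def ell (p : List ℕ) (k : ℕ) : ℕ :=
  ((List.range (p.length + 1)).filter (fun j => decide (j * (j + 1) < 2 * k))).length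

/-- DPC: correctness of the dynamic program. -/
def S_DPC : Prop := ∀ p, IsTreeCode p → ∀ ℓ k,
  (dpAns ℓ (List.replicate (2 ^ ℓ) ()) p k = true ↔
    ∃ A, Lev p ℓ A ∧ (Brn p A).card + k ≤ p.length + 1)

/-- DPP: the dynamic program is polynomial in the size of the padded input. -/
def S_DPP : Prop := Poly (fun x : (List ℕ × ℕ) × List Unit =>
  dpAns (ell x.1.1 x.1.2) x.2 x.1.1 x.1.2)

/-- PAD: running a polynomial time function on an input padded with `2 ^ e a` units. -/
def S_PAD : Prop := ∀ (α β : Type) [TEnc α] [TEnc β] (e : α → ℕ), UPoly e →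
  ∀ (F : α × List Unit → β), Poly F → ∃ (c : Cmd ℕ) (q : Polynomial ℕ), ∀ a : α,
    Runs c (inp (bits a)) (inp (bits (F (a, List.replicate (2 ^ e a) ()))))
      (q.eval (sz a + 2 ^ e a))

/-- The positive answer. -/
def S_POS : Prop := ∃ (c : ℕ) (q : Polynomial ℕ),
  DecidedIn (fun x : List ℕ × ℕ => IsTreeCode x.1)
    (fun x => SavesAtLeast (codeTree x.1) 0 x.2)
    (fun x => 2 ^ (c * (Nat.sqrt x.2 + 1)) * q.eval (bits x).length)

/-! ### Unfolding a tree level by level -/

section

variable {D : Type}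

/-- One more level. The state consists of the data of the vertices of the last level, the number
of its first vertex, and the code of the tree. -/
def unfStep (ch : D → List D) (st : List D × ℕ × List ℕ) : List D × ℕ × List ℕ :=
  (st.1.flatMap ch, st.2.1 + st.1.length,
    st.2.2 ++ st.1.zipIdx.flatMap (fun x => (ch x.1).map (fun _ => st.2.1 + x.2)))

/-- Unfolding: a vertex in depth `t` with data `x` has children with the data `ch t x`. -/
def unf (ch : ℕ → D → List D) (r : D) : ℕ → List D × ℕ × List ℕ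
  | 0 => ([r], 0, [])
  | t + 1 => unfStep (ch t) (unf ch r t)

/-- `p` is the code of the unfolded tree of height at most `H`, and `data` gives the data. -/
def IsUnf (p : List ℕ) (ch : ℕ → D → List D) (r : D) (H : ℕ) (data : ℕ → D) : Prop :=
  IsTreeCode p ∧ data 0 = r ∧ ∀ v, v ≤ p.length → dep p v ≤ H ∧ (dep p v < H →
    ∃ ks : List ℕ, ks.Nodup ∧ (∀ u, u ∈ ks ↔ 1 ≤ u ∧ u ≤ p.length ∧ par p u = v) ∧
      ks.map data = ch (dep p v) (data v))

/-- The data of the vertices of each level which burn, when exactly the bad vertices are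
protected. -/
def fr (ch : ℕ → D → List D) (good : D → Bool) (r : D) : ℕ → List D
  | 0 => [r]
  | t + 1 => ((fr ch good r t).flatMap (ch t)).filter good

/-- The data of the vertices protected in depth `t + 1`. -/
def pr (ch : ℕ → D → List D) (good : D → Bool) (r : D) (t : ℕ) : List D :=
  ((fr ch good r t).flatMap (ch t)).filter (fun x => !good x)

end

/-- UNF. -/
def S_UNF : Prop := ∀ (D : Type) (ch : ℕ → D → List D) (r : D) (H : ℕ),
  ∃ data : ℕ → D, IsUnf (unf ch r H).2.2 ch r H data

/-- FWDV: protecting the bad vertices. -/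
def S_FWDV : Prop := ∀ (D : Type) (ch : ℕ → D → List D) (r : D) (H : ℕ) (p : List ℕ)
  (data : ℕ → D) (good : D → Bool), IsUnf p ch r H data →
  (∀ t ≤ H, ∑ s ∈ Finset.range t, (pr ch good r s).length ≤ t) →
  ∃ A, Hall p A ∧ A.card ≤ ∑ s ∈ Finset.range H, (pr ch good r s).length ∧
    (Brn p A).card ≤ ∑ s ∈ Finset.range (H + 1), (fr ch good r s).length

/-! ### The reduction from 3SAT -/

/-- The occurrences of variables. -/
def occ (φ : List Cl) : List ℕ := φ.flatMap (fun c => [c.1.1, c.2.1.1, c.2.2.1])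

/-- The first occurrence of the variable `x`. -/
def ix (φ : List Cl) (x : ℕ) : ℕ :=
  (((occ φ).zipIdx.filter (fun q => decide (q.1 = x))).map Prod.snd).getD 0 0

/-- The variables are renamed to their first occurrences. -/
def prep (φ : List Cl) : List Cl :=
  φ.map (fun c => ((ix φ c.1.1, c.1.2), (ix φ c.2.1.1, c.2.1.2), (ix φ c.2.2.1, c.2.2.2)))

/-- Data of the vertices: `(true, j, a)` is a main vertex of the track `j` with the label `a`, and
`(false, r, [])` is a side vertex: a leaf for `r = 0`, a heavy vertex for `r = 1`, and a vertex on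
a path to a heavy vertex for `r ≥ 2`. -/
abbrev Dt : Type := Bool × ℕ × List Bool

/-- The side path for the literal `l` at the main vertex `(j, a)`. -/
def litSide (g j : ℕ) (a : List Bool) (l : Lit) : List Dt :=
  if l.1 / g = j then [(false, if a.getD (l.1 % g) false = l.2 then 3 else 2, [])] else []

/-- The children of a vertex in depth `d` with data `x`. Here `W` is the number of tracks, `g` the
number of variables of a track, `cs` the list of clauses, `K` the number of leaves at a heavy
vertex and `H` the depth. -/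
def chF (W g : ℕ) (cs : List Cl) (K H : ℕ) (d : ℕ) (x : Dt) : List Dt :=
  if d = 0 then (false, 1, []) :: (List.range W).map (fun j => (true, j, []))
  else if x.1 = false then
    (if x.2.1 = 0 then [] else if x.2.1 = 1 then List.replicate K (false, 0, [])
      else [(false, x.2.1 - 1, [])])
  else if H ≤ d then []
  else if (d - 1) / 3 < W * g then
    (if x.2.1 = (d - 1) / 3 / g then
      (if (d - 1) % 3 = 0 then [(true, x.2.1, x.2.2 ++ [false]), (true, x.2.1, x.2.2 ++ [true])]
      else if (d - 1) % 3 = 1 then [(false, 1, []), (false, 2, []), (true, x.2.1, x.2.2)]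
      else [(true, x.2.1, x.2.2)])
    else [(true, x.2.1, x.2.2)])
  else if (d - 1) % 3 = 0 then
    litSide g x.2.1 x.2.2 (cs.getD ((d - 1) / 3 - W * g) default).1 ++
    litSide g x.2.1 x.2.2 (cs.getD ((d - 1) / 3 - W * g) default).2.1 ++
    litSide g x.2.1 x.2.2 (cs.getD ((d - 1) / 3 - W * g) default).2.2 ++
    [(true, x.2.1, x.2.2)]
  else [(true, x.2.1, x.2.2)]

/-- The data of the root. -/
def rootD : Dt := (true, 0, [])

/-- The number of variables of a track. -/
def gg (W : ℕ) (φ : List Cl) : ℕ := 3 * φ.length / W + 1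

/-- The number of levels with main vertices, which is the number of protected vertices. -/
def HH (W : ℕ) (φ : List Cl) : ℕ := 1 + 3 * (W * gg W φ + φ.length)

/-- The number of vertices which may burn. -/
def kk (W : ℕ) (φ : List Cl) : ℕ := 1 + HH W φ * (W + 3)

/-- The number of leaves at a heavy vertex. -/
def KK (W : ℕ) (φ : List Cl) : ℕ := kk W φ + HH W φ + 2

/-- The children function of the reduction. -/
def chR (W : ℕ) (φ : List Cl) : ℕ → Dt → List Dt :=
  chF W (gg W φ) (prep φ) (KK W φ) (HH W φ)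

/-- One more level, truncated. -/
def unfStepT (big : List Unit) (ch : Dt → List Dt) (st : List Dt × ℕ × List ℕ) :
    List Dt × ℕ × List ℕ :=
  (trunc big (st.1.flatMap ch), st.2.1 + st.1.length,
    st.2.2 ++ st.1.zipIdx.flatMap (fun x => (ch x.1).map (fun _ => st.2.1 + x.2)))

/-- The code of the tree. The length of `pad` should be `2 ^ gg W φ`. -/
def redP (W : ℕ) (φ : List Cl) (pad : List Unit) : List ℕ :=
  ((List.range (HH W φ + 1)).foldl (fun st t =>
    unfStepT (List.replicate (W * pad.length * (3 * (KK W φ + 1) * (HH W φ + 1) + 1)) ())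
      (chR W φ t) st)
      ([rootD], 0, [])).2.2

/-- RP: the reduction is polynomial in the size of the padded input. -/
def S_RP : Prop := Poly (fun x : (List Unit × List Cl) × List Unit =>
  (redP x.1.1.length x.1.2 x.2, kk x.1.1.length x.1.2, HH x.1.1.length x.1.2))

/-- SIZE: the levels are small. -/
def S_SIZE : Prop := ∀ W φ, 0 < W → ∀ t ≤ HH W φ + 1,
  (unf (chR W φ) rootD t).1.length ≤
    W * 2 ^ gg W φ * (3 * (KK W φ + 1) * (HH W φ + 1) + 1)

/-- FWDL: the strategy for a satisfiable formula. -/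
def S_FWDL : Prop := ∀ W φ, 0 < W → Sat φ → ∃ good : Dt → Bool,
  (∀ t ≤ HH W φ + 1, ∑ s ∈ Finset.range t, (pr (chR W φ) good rootD s).length ≤ t) ∧
  ∑ s ∈ Finset.range (HH W φ + 1), (pr (chR W φ) good rootD s).length ≤ HH W φ ∧
  ∑ s ∈ Finset.range (HH W φ + 2), (fr (chR W φ) good rootD s).length ≤ kk W φ

/-- The state before the block `b` when the tracks have the labels `lab`. -/
def St (p : List ℕ) (data : ℕ → Dt) (A : Finset ℕ) (W : ℕ) (lab : ℕ → List Bool) (b : ℕ) : Prop :=
  (∀ j < W, ∃ v ∈ Brn p A, dep p v = 1 + 3 * b ∧ data v = (true, j, lab j)) ∧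
  1 + 3 * b ≤ (A.filter (fun a => dep p a ≤ 1 + 3 * b)).card

/-- No heavy vertex burns. -/
def NoHeavy (p : List ℕ) (data : ℕ → Dt) (A : Finset ℕ) (H : ℕ) : Prop :=
  ∀ v ∈ Brn p A, dep p v ≤ H → data v ≠ (false, 1, [])

/-- The literal `l` is true under the labels `lab`. -/
def litTrue (g : ℕ) (lab : ℕ → List Bool) (l : Lit) : Prop :=
  (lab (l.1 / g)).getD (l.1 % g) false = l.2

/-- BH: heavy vertices do not burn. -/
def S_BH : Prop := ∀ (W g k H : ℕ) (cs : List Cl) (p : List ℕ) (data : ℕ → Dt) (A : Finset ℕ),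
  IsUnf p (chF W g cs (k + H + 2) H) rootD (H + 1) data → Hall p A → (Brn p A).card ≤ k →
  NoHeavy p data A H

/-- B0: the start. -/
def S_B0 : Prop := ∀ (W g K H : ℕ) (cs : List Cl) (p : List ℕ) (data : ℕ → Dt) (A : Finset ℕ),
  1 ≤ H → IsUnf p (chF W g cs K H) rootD (H + 1) data → Hall p A → NoHeavy p data A H →
  St p data A W (fun _ => []) 0

/-- BC: the block of a variable. -/
def S_BC : Prop := ∀ (W g K H : ℕ) (cs : List Cl) (p : List ℕ) (data : ℕ → Dt) (A : Finset ℕ),
  0 < g → H = 1 + 3 * (W * g + cs.length) →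
  IsUnf p (chF W g cs K H) rootD (H + 1) data → Hall p A → NoHeavy p data A H →
  ∀ lab b, b < W * g → St p data A W lab b →
  ∃ β, St p data A W (Function.update lab (b / g) (lab (b / g) ++ [β])) (b + 1)

/-- BL: the block of a clause. -/
def S_BL : Prop := ∀ (W g K H : ℕ) (cs : List Cl) (p : List ℕ) (data : ℕ → Dt) (A : Finset ℕ),
  0 < g → H = 1 + 3 * (W * g + cs.length) →
  (∀ c ∈ cs, c.1.1 < W * g ∧ c.2.1.1 < W * g ∧ c.2.2.1 < W * g) →
  IsUnf p (chF W g cs K H) rootD (H + 1) data → Hall p A → NoHeavy p data A H →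
  ∀ lab i, ∀ hi : i < cs.length, St p data A W lab (W * g + i) →
  (litTrue g lab cs[i].1 ∨ litTrue g lab cs[i].2.1 ∨ litTrue g lab cs[i].2.2) ∧
  St p data A W lab (W * g + (i + 1))

/-- PRE: the renaming of the variables. -/
def S_PRE : Prop := ∀ φ : List Cl, ((prep φ).length = φ.length) ∧
  (∀ x ∈ occ φ, ix φ x < 3 * φ.length ∧ (occ φ).getD (ix φ x) 0 = x) ∧
  (∀ c ∈ prep φ, c.1.1 < 3 * φ.length ∧ c.2.1.1 < 3 * φ.length ∧ c.2.2.1 < 3 * φ.length) ∧
  (∀ β : ℕ → Bool, (∀ c ∈ prep φ, β c.1.1 = c.1.2 ∨ β c.2.1.1 = c.2.1.2 ∨ β c.2.2.1 = c.2.2.2) →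
    Sat φ)

/-- RC: correctness of the reduction. -/
def S_RC : Prop := ∀ W φ, 0 < W →
  IsTreeCode (redP W φ (List.replicate (2 ^ gg W φ) ())) ∧
  kk W φ ≤ (redP W φ (List.replicate (2 ^ gg W φ) ())).length ∧
  (Sat φ → ∃ A, Hall (redP W φ (List.replicate (2 ^ gg W φ) ())) A ∧ A.card ≤ HH W φ ∧
    (Brn (redP W φ (List.replicate (2 ^ gg W φ) ())) A).card ≤ kk W φ) ∧
  ((∃ A, Hall (redP W φ (List.replicate (2 ^ gg W φ) ())) A ∧
    (Brn (redP W φ (List.replicate (2 ^ gg W φ) ())) A).card ≤ kk W φ) → Sat φ)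

/-- ETH: the running time of the composed algorithm (the general form: `e` is the exponent of the
padding, `kap` the new parameter). -/
def S_ETH : Prop := ∀ (β : Type) [TEnc β] (ok P : β → Prop) (κ : β → ℕ)
  (F : (List Unit × List Cl) × List Unit → β) (C : ℕ), Poly F →
  (∀ W φ, 0 < W → ok (F ((List.replicate W (), φ), List.replicate (2 ^ gg W φ) ())) ∧
    (P (F ((List.replicate W (), φ), List.replicate (2 ^ gg W φ) ())) ↔ Sat φ) ∧
    κ (F ((List.replicate W (), φ), List.replicate (2 ^ gg W φ) ())) ≤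
      C * W * (φ.length + W)) →
  SubexpTime ok κ P → EthFails

/-- The negative answer for Saving all but `k` vertices. -/
def S_NEGA : Prop := SubexpTime (fun x : List ℕ × ℕ => IsTreeCode x.1) (fun x => x.2)
  (fun x => BurnsAtMost (codeTree x.1) 0 x.2) → EthFails

/-- The negative answer for Maximum `k`-vertex protection. -/
def S_NEGB : Prop := SubexpTime (fun x : List ℕ × ℕ × ℕ => IsTreeCode x.1) (fun x => x.2.1)
  (fun x => ProtectSaves (codeTree x.1) 0 x.2.1 x.2.2) → EthFails

/-- TREE: the graphs `codeTree p` are trees, and these are all the finite trees. -/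
def S_TREE : Prop := (∀ p, IsTreeCode p → (codeTree p).IsTree) ∧
  ∀ (V : Type) [Fintype V] (G : SimpleGraph V), G.IsTree → ∀ s : V,
    ∃ p, IsTreeCode p ∧ ∃ f : codeTree p ≃g G, f 0 = s

end Pool.FF
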